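import Pool.Agent.Q73.TG.Stm

namespace Pool.Agent.Q73.TG

open MeasureTheory Set
open scoped ENNReal ContDiff Pointwise

theorem t1 : T1 := by
  intro m R s hs
  have hcont : Continuous fun x : Sph m => (⟨R (x : E m), by simp⟩ : Sph m) :=
    Continuous.subtype_mk (R.continuous.comp continuous_subtype_val) _
  have hset : {x : Sph m | ∃ y ∈ s, (y : E m) = R (x : E m)}
      = (fun x : Sph m => (⟨R (x : E m), by simp⟩ : Sph m)) ⁻¹' s := by
    ext x
    constructor
    · rintro ⟨y, hy, h⟩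
      have : (⟨R (x : E m), by simp⟩ : Sph m) = y := Subtype.ext h.symm
      simpa [mem_preimage, this] using hy
    · intro h
      exact ⟨_, h, rfl⟩
  have hms : MeasurableSet {x : Sph m | ∃ y ∈ s, (y : E m) = R (x : E m)} := by
    rw [hset]; exact hcont.measurable hs
  unfold vol
  rw [Measure.toSphere_apply' _ hms, Measure.toSphere_apply' _ hs]
  congr 1
  have himg : Ioo (0 : ℝ) 1 • ((↑) '' {x : Sph m | ∃ y ∈ s, (y : E m) = R (x : E m)} : Set (E m))
      = R ⁻¹' (Ioo (0 : ℝ) 1 • ((↑) '' s : Set (E m))) := by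
    ext z
    simp only [mem_smul, mem_image, mem_preimage]
    constructor
    · rintro ⟨t, ht, _, ⟨x, ⟨y, hy, hxy⟩, rfl⟩, rfl⟩
      exact ⟨t, ht, y, ⟨y, hy, rfl⟩, by rw [hxy, map_smul]⟩
    · rintro ⟨t, ht, _, ⟨y, hy, rfl⟩, h⟩
      refine ⟨t, ht, R.symm y, ⟨⟨R.symm (y : E m), by simp⟩, ⟨y, hy, by simp⟩, rfl⟩, ?_⟩
      apply R.injective
      rw [map_smul, R.apply_symm_apply, h]
  rw [himg]
  exact R.measurePreserving.measure_preimage_emb R.toHomeomorph.measurableEmbedding _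

end Pool.Agent.Q73.TG
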