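import Pool.Agent.Q73.TG.Stm

/-!
# T14: Kakeya compression (helper52)
-/

namespace Pool.Agent.Q73.TG

open MeasureTheory Set
open scoped ENNReal

namespace T14P

lemma yy_eq (K : ℕ) (b : Fin K → Bool) (X : ℝ) :
    yy K b X = ∑ k : Fin K, if b k then (X - xk K k) * (1 / 2 : ℝ) ^ ((k : ℕ) + 1) else 0 := by
  unfold yy aa bb
  rw [Finset.sum_mul, ← sub_eq_add_neg, ← Finset.sum_sub_distrib]
  refine Finset.sum_congr rfl fun k _ => ?_
  split_ifs <;> ring

lemma geo (k0 : ℕ) : ∀ n, k0 ≤ n →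
    ∑ k ∈ Finset.range n, (if k0 ≤ k then ((k : ℝ) + 1 - k0) * (1 / 2 : ℝ) ^ (k + 1) else 0)
      = 2 * (1 / 2) ^ k0 - ((n : ℝ) - k0 + 2) * (1 / 2) ^ n := by
  intro n hn
  induction n, hn using Nat.le_induction with
  | base =>
    rw [Finset.sum_eq_zero]
    · ring
    · intro k hk
      rw [if_neg]
      have := Finset.mem_range.mp hk
      omega
  | succ n hn ih =>
    rw [Finset.sum_range_succ, ih, if_pos hn]
    push_cast
    ring

lemma slice (K : ℕ) (R X : ℝ) (hK : 1 ≤ K) (hR : 1 ≤ R) (h0 : 0 < X) (h1 : X < 1 / 2) :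
    volume {Y : ℝ | ∃ b : Fin K → Bool, |yy K b X - Y| ≤ R * (1 / 2) ^ K} ≤
      ENNReal.ofReal (6 * R / K) := by
  have hK' : (0 : ℝ) < K := by exact_mod_cast hK
  set k0 : ℕ := ⌊X * K⌋₊ with hk0
  have hle : (k0 : ℝ) ≤ X * K := Nat.floor_le (by positivity)
  have hlt : X * K < k0 + 1 := Nat.lt_floor_add_one _
  have h2 : 2 * (k0 : ℝ) ≤ K := by nlinarith
  have h2' : 2 * k0 ≤ K := by exact_mod_cast h2
  have hkK : k0 ≤ K := by omega
  let F : (Fin k0 → Bool) → Fin K → Bool :=
    fun d k => if h : (k : ℕ) < k0 then d ⟨k, h⟩ else false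
  set w : ℝ := 2 / K * (1 / 2) ^ k0 with hw
  have key : {Y : ℝ | ∃ b : Fin K → Bool, |yy K b X - Y| ≤ R * (1 / 2) ^ K} ⊆
      ⋃ d : Fin k0 → Bool,
        Icc (yy K (F d) X - w - R * (1 / 2) ^ K) (yy K (F d) X + R * (1 / 2) ^ K) := by
    rintro Y ⟨b, hb⟩
    refine mem_iUnion.mpr ⟨fun i => b (Fin.castLE hkK i), ?_⟩
    have hd : yy K b X - yy K (F fun i => b (Fin.castLE hkK i)) X =
        ∑ k : Fin K, if b k = true ∧ k0 ≤ (k : ℕ) then
          (X - xk K k) * (1 / 2 : ℝ) ^ ((k : ℕ) + 1) else 0 := by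
      rw [yy_eq, yy_eq, ← Finset.sum_sub_distrib]
      refine Finset.sum_congr rfl fun k _ => ?_
      by_cases hk : (k : ℕ) < k0
      · have e : F (fun i => b (Fin.castLE hkK i)) k = b k := by
          simp only [F, hk, dif_pos]
          rfl
        rw [e, sub_self, if_neg]
        rintro ⟨-, h⟩
        omega
      · have e : F (fun i => b (Fin.castLE hkK i)) k = false := by
          simp only [F, hk, dif_neg, not_false_eq_true]
        rw [e]
        have hk' : k0 ≤ (k : ℕ) := not_lt.mp hk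
        by_cases hbk : b k = true
        · simp [hbk, hk']
        · simp [hbk]
    have hx : ∀ k : Fin K, k0 ≤ (k : ℕ) →
        X - xk K k ≤ 0 ∧ -(((k : ℕ) : ℝ) + 1 - k0) / K ≤ X - xk K k := by
      intro k hk
      have hk2 : (k0 : ℝ) ≤ ((k : ℕ) : ℝ) := by exact_mod_cast hk
      have ex : X - xk K k = (X * K - (((k : ℕ) : ℝ) + 1)) / K := by
        unfold xk
        field_simp
      rw [ex]
      constructor
      · apply div_nonpos_of_nonpos_of_nonneg _ hK'.le
        linarith
      · apply div_le_div_of_nonneg_right _ hK'.le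
        linarith
    have hup : yy K b X - yy K (F fun i => b (Fin.castLE hkK i)) X ≤ 0 := by
      rw [hd]
      refine Finset.sum_nonpos fun k _ => ?_
      split_ifs with h
      · exact mul_nonpos_of_nonpos_of_nonneg (hx k h.2).1 (by positivity)
      · exact le_rfl
    have hlo : -w ≤ yy K b X - yy K (F fun i => b (Fin.castLE hkK i)) X := by
      rw [hd]
      have hsum : -(∑ k ∈ Finset.range K,
          (if k0 ≤ k then ((k : ℝ) + 1 - k0) * (1 / 2 : ℝ) ^ (k + 1) else 0)) / K ≤
          ∑ k : Fin K, if b k = true ∧ k0 ≤ (k : ℕ) then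
            (X - xk K k) * (1 / 2 : ℝ) ^ ((k : ℕ) + 1) else 0 := by
        rw [← Fin.sum_univ_eq_sum_range (fun k => if k0 ≤ k then
          ((k : ℝ) + 1 - k0) * (1 / 2 : ℝ) ^ (k + 1) else 0) K, ← Finset.sum_neg_distrib,
          Finset.sum_div]
        refine Finset.sum_le_sum fun k _ => ?_
        by_cases hk : k0 ≤ (k : ℕ)
        · have hk2 : (k0 : ℝ) ≤ ((k : ℕ) : ℝ) := by exact_mod_cast hk
          have hp : (0 : ℝ) < (1 / 2 : ℝ) ^ ((k : ℕ) + 1) := by positivity
          rw [if_pos hk]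
          split_ifs with h
          · have := mul_le_mul_of_nonneg_right (hx k hk).2 hp.le
            calc _ = -(((k : ℕ) : ℝ) + 1 - k0) / K * (1 / 2 : ℝ) ^ ((k : ℕ) + 1) := by ring
              _ ≤ _ := this
          · apply div_nonpos_of_nonpos_of_nonneg _ hK'.le
            have : 0 ≤ (((k : ℕ) : ℝ) + 1 - k0) := by linarith
            have := mul_nonneg this hp.le
            linarith
        · rw [if_neg hk, if_neg (fun h => hk h.2)]
          simp
      refine le_trans ?_ hsum
      rw [geo k0 K hkK, hw, le_div_iff₀ hK']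
      have hkR : (k0 : ℝ) ≤ K := by exact_mod_cast hkK
      have : 0 ≤ ((K : ℝ) - k0 + 2) * (1 / 2 : ℝ) ^ K :=
        mul_nonneg (by linarith) (by positivity)
      have e : -(2 / (K : ℝ) * (1 / 2) ^ k0) * K = -(2 * (1 / 2) ^ k0) := by
        field_simp
      rw [e]
      linarith
    rw [abs_le] at hb
    constructor <;> linarith [hb.1, hb.2]
  have hR0 : (0 : ℝ) ≤ R := by linarith
  have hw0 : 0 ≤ w := by positivity
  calc volume {Y : ℝ | ∃ b : Fin K → Bool, |yy K b X - Y| ≤ R * (1 / 2) ^ K}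
      ≤ volume (⋃ d : Fin k0 → Bool,
        Icc (yy K (F d) X - w - R * (1 / 2) ^ K) (yy K (F d) X + R * (1 / 2) ^ K)) :=
        measure_mono key
    _ ≤ ∑ d : Fin k0 → Bool, volume
        (Icc (yy K (F d) X - w - R * (1 / 2) ^ K) (yy K (F d) X + R * (1 / 2) ^ K)) :=
        measure_iUnion_fintype_le _ _
    _ = ∑ _d : Fin k0 → Bool, ENNReal.ofReal (w + 2 * (R * (1 / 2) ^ K)) := by
        refine Finset.sum_congr rfl fun d _ => ?_
        rw [Real.volume_Icc]
        congr 1
        ring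
    _ = ENNReal.ofReal (2 ^ k0 * (w + 2 * (R * (1 / 2) ^ K))) := by
        rw [Finset.sum_const, Finset.card_univ, Fintype.card_fun, Fintype.card_bool,
          Fintype.card_fin, nsmul_eq_mul, ENNReal.ofReal_mul (by positivity)]
        congr 1
        rw [ENNReal.ofReal_pow (by norm_num)]
        simp
    _ ≤ ENNReal.ofReal (6 * R / K) := by
        apply ENNReal.ofReal_le_ofReal
        have hm1 : K ≤ 2 * 2 ^ (K - k0) := by
          have := (K - k0).lt_two_pow_self
          omega
        have hm2 : (K : ℝ) ≤ 2 * 2 ^ (K - k0) := by exact_mod_cast hm1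
        have e1 : (2 : ℝ) ^ k0 * (1 / 2) ^ K = 1 / 2 ^ (K - k0) := by
          have : (2 : ℝ) ^ K = 2 ^ (K - k0) * 2 ^ k0 := by
            rw [← pow_add]
            congr 1
            omega
          rw [one_div, inv_pow, this]
          field_simp
        have e2 : (1 : ℝ) / 2 ^ (K - k0) ≤ 2 / K := by
          rw [div_le_div_iff₀ (by positivity) hK']
          linarith
        have e3 : (2 : ℝ) ^ k0 * (1 / 2) ^ k0 = 1 := by
          rw [← mul_pow]
          norm_num
        have e4 : (2 : ℝ) ^ k0 * (w + 2 * (R * (1 / 2) ^ K)) =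
            2 / K * (2 ^ k0 * (1 / 2) ^ k0) + 2 * R * (2 ^ k0 * (1 / 2) ^ K) := by
          rw [hw]
          ring
        rw [e4, e3, e1, mul_one]
        have e5 : 2 * R * (1 / 2 ^ (K - k0)) ≤ 2 * R * (2 / K) :=
          mul_le_mul_of_nonneg_left e2 (by positivity)
        have e6 : 2 / (K : ℝ) ≤ 2 * R / K := by
          apply div_le_div_of_nonneg_right _ hK'.le
          linarith
        calc 2 / (K : ℝ) + 2 * R * (1 / 2 ^ (K - k0)) ≤ 2 * R / K + 2 * R * (2 / K) :=
            add_le_add e6 e5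
          _ = 6 * R / K := by ring

lemma cont_yy (K : ℕ) (b : Fin K → Bool) : Continuous (yy K b) := by
  unfold yy
  fun_prop

lemma meas_GG (K : ℕ) (R : ℝ) : MeasurableSet (GG K R) := by
  have e : GG K R = {z : ℝ × ℝ | 0 < z.1} ∩ ({z : ℝ × ℝ | z.1 < 1 / 2} ∩
      ⋃ b : Fin K → Bool, {z : ℝ × ℝ | |yy K b z.1 - z.2| ≤ R * (1 / 2) ^ K}) := by
    ext z
    simp [GG]
  rw [e]
  refine (measurableSet_lt measurable_const measurable_fst).inter
    ((measurableSet_lt measurable_fst measurable_const).inter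
      (MeasurableSet.iUnion fun b => ?_))
  refine measurableSet_le ?_ measurable_const
  have : Continuous fun z : ℝ × ℝ => |yy K b z.1 - z.2| :=
    (((cont_yy K b).comp continuous_fst).sub continuous_snd).abs
  exact this.measurable

end T14P

open T14P in
theorem t14 : T14 := by
  refine ⟨6, by norm_num, fun K R hK hR => ?_⟩
  rw [Measure.volume_eq_prod, Measure.prod_apply (meas_GG K R)]
  have hpt : ∀ x : ℝ, (volume : Measure ℝ) (Prod.mk x ⁻¹' GG K R) ≤
      (Ioo (0 : ℝ) (1 / 2)).indicator (fun _ => ENNReal.ofReal (6 * R / K)) x := by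
    intro x
    by_cases hx : x ∈ Ioo (0 : ℝ) (1 / 2)
    · rw [indicator_of_mem hx]
      refine le_trans (measure_mono ?_) (slice K R x hK hR hx.1 hx.2)
      intro Y hY
      exact hY.2.2
    · rw [indicator_of_notMem hx]
      have : Prod.mk x ⁻¹' GG K R = ∅ := by
        ext Y
        simp only [mem_preimage, mem_empty_iff_false, iff_false]
        exact fun hY => hx ⟨hY.1, hY.2.1⟩
      rw [this, measure_empty]
  calc ∫⁻ x : ℝ, (volume : Measure ℝ) (Prod.mk x ⁻¹' GG K R)
      ≤ ∫⁻ x : ℝ, (Ioo (0 : ℝ) (1 / 2)).indicator (fun _ => ENNReal.ofReal (6 * R / K)) x :=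
        lintegral_mono hpt
    _ = ENNReal.ofReal (6 * R / K) * volume (Ioo (0 : ℝ) (1 / 2)) := by
        rw [lintegral_indicator measurableSet_Ioo, setLIntegral_const]
    _ ≤ ENNReal.ofReal (6 * R / K) * 1 := by
        gcongr
        rw [Real.volume_Ioo]
        rw [← ENNReal.ofReal_one]
        exact ENNReal.ofReal_le_ofReal (by norm_num)
    _ = ENNReal.ofReal (6 * R / K) := mul_one _

end Pool.Agent.Q73.TG
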