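import Pool.Agent.Q73.TG.Stm

/-!
# Project TG, job T16: upper bounds for the mass of one beam
-/

set_option autoImplicit false

namespace Pool.Agent.Q73.TG.T16aux

open MeasureTheory Set
open scoped ENNReal

theorem geo_le (K : ℕ) : ∑ k : Fin K, (1 / 2 : ℝ) ^ ((k : ℕ) + 1) ≤ 1 := by
  rw [Fin.sum_univ_eq_sum_range (fun k => (1 / 2 : ℝ) ^ (k + 1)) K]
  have h : ∀ n : ℕ, ∑ k ∈ Finset.range n, (1 / 2 : ℝ) ^ (k + 1) = 1 - (1 / 2) ^ n := by
    intro n
    induction n with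
    | zero => simp
    | succ n ih => rw [Finset.sum_range_succ, ih, pow_succ]; ring
  rw [h]
  have : (0 : ℝ) ≤ (1 / 2) ^ K := by positivity
  linarith

theorem aa_nonneg (K : ℕ) (b : Fin K → Bool) : 0 ≤ aa K b := by
  unfold aa
  refine Finset.sum_nonneg fun k _ => ?_
  split_ifs
  · positivity
  · exact le_rfl

theorem aa_le (K : ℕ) (b : Fin K → Bool) : aa K b ≤ 1 := by
  refine le_trans ?_ (geo_le K)
  unfold aa
  refine Finset.sum_le_sum fun k _ => ?_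
  split_ifs
  · exact le_rfl
  · positivity

theorem xk_nonneg (K : ℕ) (k : Fin K) : 0 ≤ xk K k := by
  unfold xk; positivity

theorem xk_le (K : ℕ) (k : Fin K) : xk K k ≤ 1 := by
  unfold xk
  have hK : (0 : ℝ) < K := by
    have : 0 < K := by have := k.2; omega
    exact_mod_cast this
  rw [div_le_one hK]
  have : (k : ℕ) + 1 ≤ K := k.2
  exact_mod_cast this

theorem bb_nonpos (K : ℕ) (b : Fin K → Bool) : bb K b ≤ 0 := by
  unfold bb
  rw [neg_nonpos]
  refine Finset.sum_nonneg fun k _ => ?_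
  split_ifs
  · exact mul_nonneg (xk_nonneg K k) (by positivity)
  · exact le_rfl

theorem bb_ge (K : ℕ) (b : Fin K → Bool) : -1 ≤ bb K b := by
  unfold bb
  rw [neg_le_neg_iff]
  refine le_trans ?_ (geo_le K)
  refine Finset.sum_le_sum fun k _ => ?_
  have h1 : (0 : ℝ) ≤ (1 / 2) ^ ((k : ℕ) + 1) := by positivity
  split_ifs
  · nlinarith [xk_le K k, xk_nonneg K k]
  · exact h1

theorem term_le' {K : ℕ} {b : Fin K → Bool} {X Y t : ℝ}
    (hle : t ≤ (yy K b X - Y) ^ 2 / ((1 + (aa K b) ^ 2 + (bb K b) ^ 2) * (1 + X ^ 2 + Y ^ 2))) :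
    term K b X Y ≤ (1 - t) ^ (4 ^ K) := by
  have hP : 0 < (1 + (aa K b) ^ 2 + (bb K b) ^ 2) * (1 + X ^ 2 + Y ^ 2) := by positivity
  unfold term
  apply pow_le_pow_left₀
  · rw [sub_nonneg, div_le_one hP]
    unfold yy
    nlinarith [sq_nonneg (aa K b * Y + X), sq_nonneg (aa K b - bb K b * X),
      sq_nonneg (bb K b * Y + 1)]
  · linarith

theorem yy_bd {K : ℕ} {b : Fin K → Bool} {X : ℝ} (h0 : 0 < X) (h1 : X < 1 / 2) :
    -1 ≤ yy K b X ∧ yy K b X ≤ 1 := by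
  unfold yy
  have a0 := aa_nonneg K b
  have a1 := aa_le K b
  have b0 := bb_nonpos K b
  have b1 := bb_ge K b
  constructor <;> nlinarith

theorem N_le (K : ℕ) (b : Fin K → Bool) : 1 + (aa K b) ^ 2 + (bb K b) ^ 2 ≤ 3 := by
  have a0 := aa_nonneg K b
  have a1 := aa_le K b
  have b0 := bb_nonpos K b
  have b1 := bb_ge K b
  nlinarith

theorem near {K : ℕ} {b : Fin K → Bool} {X Y : ℝ} (h0 : 0 < X) (h1 : X < 1 / 2)
    (hY : |Y| ≤ 2) : term K b X Y ≤ Real.exp (-(4 ^ K * (yy K b X - Y) ^ 2 / 16)) := by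
  have hY2 : Y ^ 2 ≤ 4 := by nlinarith [abs_nonneg Y, sq_abs Y]
  have hP : 0 < (1 + (aa K b) ^ 2 + (bb K b) ^ 2) * (1 + X ^ 2 + Y ^ 2) := by positivity
  have hle : ((1 + (aa K b) ^ 2 + (bb K b) ^ 2) * (1 + X ^ 2 + Y ^ 2)) ≤ 16 := by
    have hN := N_le K b
    have hN0 : 0 ≤ 1 + (aa K b) ^ 2 + (bb K b) ^ 2 := by positivity
    have hX : X ^ 2 ≤ 1 / 4 := by nlinarith
    have : 1 + X ^ 2 + Y ^ 2 ≤ 21 / 4 := by linarith
    have h3 : (0 : ℝ) ≤ 1 + X ^ 2 + Y ^ 2 := by positivity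
    nlinarith
  have h2 := div_le_div_of_nonneg_left (sq_nonneg (yy K b X - Y)) hP hle
  have hD : 0 ≤ 1 - (yy K b X - Y) ^ 2 /
      ((1 + (aa K b) ^ 2 + (bb K b) ^ 2) * (1 + X ^ 2 + Y ^ 2)) := by
    rw [sub_nonneg, div_le_one hP]
    unfold yy
    nlinarith [sq_nonneg (aa K b * Y + X), sq_nonneg (aa K b - bb K b * X),
      sq_nonneg (bb K b * Y + 1)]
  have h3 := term_le' h2
  refine h3.trans ?_
  have h4 : 0 ≤ 1 - (yy K b X - Y) ^ 2 / 16 := by linarith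
  have h5 : 1 - (yy K b X - Y) ^ 2 / 16 ≤ Real.exp (-((yy K b X - Y) ^ 2 / 16)) := by
    have := Real.add_one_le_exp (-((yy K b X - Y) ^ 2 / 16))
    linarith
  refine (pow_le_pow_left₀ h4 h5 _).trans (le_of_eq ?_)
  rw [← Real.exp_nat_mul]
  congr 1
  push_cast
  ring

theorem far {K : ℕ} {b : Fin K → Bool} {X Y : ℝ} (h0 : 0 < X) (h1 : X < 1 / 2)
    (hY : 2 < |Y|) : term K b X Y ≤ (17 / 18) ^ (4 ^ K) := by
  have hY2 : 4 < Y ^ 2 := by nlinarith [abs_nonneg Y, sq_abs Y]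
  have hP : 0 < (1 + (aa K b) ^ 2 + (bb K b) ^ 2) * (1 + X ^ 2 + Y ^ 2) := by positivity
  obtain ⟨y1, y2⟩ := yy_bd (K := K) (b := b) h0 h1
  have hD : Y ^ 2 / 4 ≤ (yy K b X - Y) ^ 2 := by
    rcases lt_abs.mp hY with h | h <;> nlinarith
  have h2 : (1 / 18 : ℝ) ≤ (yy K b X - Y) ^ 2 /
      ((1 + (aa K b) ^ 2 + (bb K b) ^ 2) * (1 + X ^ 2 + Y ^ 2)) := by
    rw [le_div_iff₀ hP]
    have hN := N_le K b
    have hN0 : 0 ≤ 1 + (aa K b) ^ 2 + (bb K b) ^ 2 := by positivity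
    have hX : X ^ 2 ≤ 1 / 4 := by nlinarith
    have h3 : 1 + X ^ 2 + Y ^ 2 ≤ 3 / 2 * Y ^ 2 := by linarith
    have h4 : (0 : ℝ) ≤ 1 + X ^ 2 + Y ^ 2 := by positivity
    nlinarith
  refine (term_le' h2).trans (le_of_eq ?_)
  norm_num

theorem pow_bd (n : ℕ) (hn : 1 ≤ n) : (17 / 18 : ℝ) ^ n ≤ 17 / n := by
  have h1 : (n : ℝ) / 17 ≤ (18 / 17 : ℝ) ^ n := by
    have := one_add_mul_le_pow (a := (1 / 17 : ℝ)) (by norm_num) n
    have e : (1 + 1 / 17 : ℝ) = 18 / 17 := by norm_num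
    rw [e] at this
    linarith
  have hn0 : (0 : ℝ) < n := by exact_mod_cast hn
  have h2 : (17 / 18 : ℝ) ^ n * (18 / 17 : ℝ) ^ n = 1 := by
    rw [← mul_pow]; norm_num
  rw [le_div_iff₀ hn0]
  have h3 : (0 : ℝ) < (17 / 18 : ℝ) ^ n := by positivity
  nlinarith [mul_le_mul_of_nonneg_left h1 h3.le]

theorem dens_le {X Y : ℝ} : (1 + X ^ 2 + Y ^ 2) ^ (-(3 / 2) : ℝ) ≤ (1 + Y ^ 2)⁻¹ := by
  have h1 : (1 : ℝ) ≤ 1 + X ^ 2 + Y ^ 2 := by nlinarith [sq_nonneg X, sq_nonneg Y]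
  have h2 : (1 + X ^ 2 + Y ^ 2) ^ (-(3 / 2) : ℝ) ≤ (1 + X ^ 2 + Y ^ 2) ^ (-1 : ℝ) :=
    Real.rpow_le_rpow_of_exponent_le h1 (by norm_num)
  rw [Real.rpow_neg_one] at h2
  refine h2.trans ?_
  apply inv_anti₀ (by positivity)
  nlinarith [sq_nonneg X]

theorem dens_le_one {X Y : ℝ} : (1 + X ^ 2 + Y ^ 2) ^ (-(3 / 2) : ℝ) ≤ 1 := by
  have h1 : (1 : ℝ) ≤ 1 + X ^ 2 + Y ^ 2 := by nlinarith [sq_nonneg X, sq_nonneg Y]
  exact Real.rpow_le_one_of_one_le_of_nonpos h1 (by norm_num)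

theorem term_nonneg (K : ℕ) (b : Fin K → Bool) (X Y : ℝ) : 0 ≤ term K b X Y := by
  unfold term
  apply pow_nonneg
  have hP : 0 < (1 + (aa K b) ^ 2 + (bb K b) ^ 2) * (1 + X ^ 2 + Y ^ 2) := by positivity
  rw [sub_nonneg, div_le_one hP]
  unfold yy
  nlinarith [sq_nonneg (aa K b * Y + X), sq_nonneg (aa K b - bb K b * X),
    sq_nonneg (bb K b * Y + 1)]

/-- the Gaussian part over one slice -/
theorem slice (K : ℕ) (y M : ℝ) (hM : 0 ≤ M) :
    ∫⁻ Y : ℝ, ENNReal.ofReal (M * Real.exp (-(4 ^ K * (y - Y) ^ 2 / 32))) =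
      ENNReal.ofReal (M * (Real.sqrt (32 * Real.pi) * (1 / 2) ^ K)) := by
  have h1 := lintegral_sub_left_eq_self (μ := (volume : Measure ℝ))
    (fun Y : ℝ => ENNReal.ofReal (M * Real.exp (-(4 ^ K * Y ^ 2 / 32)))) y
  rw [h1]
  have hb : (0 : ℝ) < 4 ^ K / 32 := by positivity
  have e1 : ∀ Y : ℝ, M * Real.exp (-(4 ^ K * Y ^ 2 / 32)) =
      M * Real.exp (-(4 ^ K / 32) * Y ^ 2) := fun Y => by
    congr 2; ring
  simp_rw [e1]
  rw [← ofReal_integral_eq_lintegral_ofReal ((integrable_exp_neg_mul_sq hb).const_mul M)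
    (Filter.Eventually.of_forall fun Y => by positivity), integral_const_mul, integral_gaussian]
  congr 2
  have e2 : Real.pi / (4 ^ K / 32) = (32 * Real.pi) * ((1 / 2) ^ K) ^ 2 := by
    have : ((1 / 2 : ℝ) ^ K) ^ 2 = 1 / 4 ^ K := by
      rw [← pow_mul, mul_comm, pow_mul, ← one_div_pow]
      norm_num
    rw [this]
    field_simp
  rw [e2, Real.sqrt_mul (by positivity), Real.sqrt_sq (by positivity)]

theorem cauchy (m : ℝ) (hm : 0 ≤ m) :
    ∫⁻ Y : ℝ, ENNReal.ofReal (m * (1 + Y ^ 2)⁻¹) = ENNReal.ofReal (m * Real.pi) := by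
  rw [← ofReal_integral_eq_lintegral_ofReal (integrable_inv_one_add_sq.const_mul m)
    (Filter.Eventually.of_forall fun Y => by positivity), integral_const_mul,
    integral_univ_inv_one_add_sq]

theorem meas_term (K : ℕ) (b : Fin K → Bool) :
    Measurable fun z : ℝ × ℝ => ENNReal.ofReal (term K b z.1 z.2) := by
  unfold term yy
  fun_prop

theorem strip (K : ℕ) (b : Fin K → Bool) (S : Set (ℝ × ℝ)) (hS : MeasurableSet S)
    (hSs : ∀ z ∈ S, 0 < z.1 ∧ z.1 < 1 / 2) (M : ℝ) (hM : 0 ≤ M)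
    (hSM : ∀ z ∈ S, Real.exp (-(4 ^ K * (yy K b z.1 - z.2) ^ 2 / 16)) ≤
      M * Real.exp (-(4 ^ K * (yy K b z.1 - z.2) ^ 2 / 32))) :
    ∫⁻ z in S, ENNReal.ofReal (term K b z.1 z.2) ∂muC ≤
      ENNReal.ofReal ((M * Real.sqrt (32 * Real.pi) + 17 * Real.pi * (1 / 2) ^ K) *
        (1 / 2) ^ K) := by
  have hmt := meas_term K b
  have hmr : Measurable fun z : ℝ × ℝ =>
      ENNReal.ofReal ((1 + z.1 ^ 2 + z.2 ^ 2) ^ (-(3 / 2) : ℝ)) := by
    apply ENNReal.measurable_ofReal.comp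
    exact (by fun_prop : Measurable fun z : ℝ × ℝ => 1 + z.1 ^ 2 + z.2 ^ 2).pow_const _
  unfold muC
  rw [setLIntegral_withDensity_eq_setLIntegral_mul _ hmr hmt hS]
  set m : ℝ := (17 / 18 : ℝ) ^ (4 ^ K) with hm
  have hm0 : 0 ≤ m := by positivity
  have hmb : m ≤ 17 * ((1 / 2) ^ K * (1 / 2) ^ K) := by
    have h1 := pow_bd (4 ^ K) (Nat.one_le_pow _ _ (by norm_num))
    refine h1.trans (le_of_eq ?_)
    push_cast
    rw [← mul_pow, div_eq_mul_one_div, ← one_div_pow]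
    norm_num
  have hg1 : Measurable fun z : ℝ × ℝ =>
      ENNReal.ofReal (M * Real.exp (-(4 ^ K * (yy K b z.1 - z.2) ^ 2 / 32))) := by
    unfold yy
    fun_prop
  have hg2 : Measurable fun z : ℝ × ℝ => ENNReal.ofReal (m * (1 + z.2 ^ 2)⁻¹) := by
    fun_prop
  calc ∫⁻ z in S, ((fun z : ℝ × ℝ => ENNReal.ofReal ((1 + z.1 ^ 2 + z.2 ^ 2) ^ (-(3 / 2) : ℝ))) *
        fun z : ℝ × ℝ => ENNReal.ofReal (term K b z.1 z.2)) z
      ≤ ∫⁻ z in S, (ENNReal.ofReal (M * Real.exp (-(4 ^ K * (yy K b z.1 - z.2) ^ 2 / 32))) +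
          ENNReal.ofReal (m * (1 + z.2 ^ 2)⁻¹)) := by
        refine setLIntegral_mono' hS fun z hz => ?_
        obtain ⟨h0, h1⟩ := hSs z hz
        have hr0 : (0 : ℝ) ≤ (1 + z.1 ^ 2 + z.2 ^ 2) ^ (-(3 / 2) : ℝ) := by positivity
        rw [Pi.mul_apply, ← ENNReal.ofReal_mul hr0,
          ← ENNReal.ofReal_add (by positivity) (by positivity)]
        apply ENNReal.ofReal_le_ofReal
        have ht0 := term_nonneg K b z.1 z.2
        rcases le_or_gt |z.2| 2 with hY | hY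
        · have h2 := (near (K := K) (b := b) h0 h1 hY).trans (hSM z hz)
          have h3 : (0 : ℝ) ≤ m * (1 + z.2 ^ 2)⁻¹ := by positivity
          have h4 := dens_le_one (X := z.1) (Y := z.2)
          nlinarith [mul_le_mul_of_nonneg_right h4 ht0]
        · have h2 := far (K := K) (b := b) h0 h1 hY
          have h3 : (0 : ℝ) ≤ M * Real.exp (-(4 ^ K * (yy K b z.1 - z.2) ^ 2 / 32)) := by
            positivity
          have h4 := dens_le (X := z.1) (Y := z.2)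
          have h5 := mul_le_mul h4 h2 ht0 (by positivity)
          rw [← hm] at h5
          nlinarith
    _ ≤ ∫⁻ z in (Ioo (0 : ℝ) (1 / 2)) ×ˢ (univ : Set ℝ),
          (ENNReal.ofReal (M * Real.exp (-(4 ^ K * (yy K b z.1 - z.2) ^ 2 / 32))) +
          ENNReal.ofReal (m * (1 + z.2 ^ 2)⁻¹)) := by
        apply lintegral_mono_set
        intro z hz
        exact ⟨hSs z hz, mem_univ _⟩
    _ = ∫⁻ X in Ioo (0 : ℝ) (1 / 2), ∫⁻ Y : ℝ,
          (ENNReal.ofReal (M * Real.exp (-(4 ^ K * (yy K b X - Y) ^ 2 / 32))) +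
          ENNReal.ofReal (m * (1 + Y ^ 2)⁻¹)) := by
        rw [Measure.volume_eq_prod, ← Measure.prod_restrict, Measure.restrict_univ]
        exact lintegral_prod _ (hg1.add hg2).aemeasurable
    _ = ∫⁻ X in Ioo (0 : ℝ) (1 / 2),
          (ENNReal.ofReal (M * (Real.sqrt (32 * Real.pi) * (1 / 2) ^ K)) +
          ENNReal.ofReal (m * Real.pi)) := by
        refine lintegral_congr fun X => ?_
        rw [lintegral_add_left (by fun_prop), slice K _ M hM, cauchy m hm0]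
    _ = ENNReal.ofReal (M * (Real.sqrt (32 * Real.pi) * (1 / 2) ^ K) + m * Real.pi) *
          ENNReal.ofReal (1 / 2) := by
        rw [setLIntegral_const, Real.volume_Ioo, ← ENNReal.ofReal_add (by positivity)
          (by positivity)]
        norm_num
    _ ≤ _ := by
        rw [← ENNReal.ofReal_mul (by positivity)]
        apply ENNReal.ofReal_le_ofReal
        have h1 : m * Real.pi ≤ 17 * ((1 / 2) ^ K * (1 / 2) ^ K) * Real.pi :=
          mul_le_mul_of_nonneg_right hmb Real.pi_pos.le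
        have h2 : 0 ≤ M * (Real.sqrt (32 * Real.pi) * (1 / 2) ^ K) := by positivity
        have h3 : 0 ≤ m * Real.pi := by positivity
        nlinarith

end Pool.Agent.Q73.TG.T16aux

namespace Pool.Agent.Q73.TG

open MeasureTheory Set T16aux
open scoped ENNReal

theorem t16 : T16 := by
  refine ⟨⟨Real.sqrt (32 * Real.pi) + 17 * Real.pi, by positivity, ?_⟩, ?_⟩
  · intro K b _
    have hS : MeasurableSet {z : ℝ × ℝ | 0 < z.1 ∧ z.1 < 1 / 2} :=
      (measurableSet_lt measurable_const measurable_fst).inter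
        (measurableSet_lt measurable_fst measurable_const)
    refine (strip K b _ hS (fun z hz => hz) 1 zero_le_one (fun z _ => ?_)).trans ?_
    · rw [one_mul]
      apply Real.exp_le_exp.mpr
      have : 0 ≤ 4 ^ K * (yy K b z.1 - z.2) ^ 2 := by positivity
      linarith
    · apply ENNReal.ofReal_le_ofReal
      have h1 : (1 / 2 : ℝ) ^ K ≤ 1 := pow_le_one₀ (by norm_num) (by norm_num)
      have h2 : (0 : ℝ) < (1 / 2 : ℝ) ^ K := by positivity
      have h3 := Real.pi_pos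
      apply mul_le_mul_of_nonneg_right _ h2.le
      nlinarith
  · intro η hη
    -- choice of `R`
    set c1 : ℝ := Real.sqrt (32 * Real.pi) with hc1
    have hc10 : 0 ≤ c1 := Real.sqrt_nonneg _
    have hR : ∃ R : ℝ, 1 ≤ R ∧ Real.exp (-(R ^ 2 / 32)) * c1 ≤ η / 2 := by
      refine ⟨max 1 (64 * (c1 + 1) / η), le_max_left _ _, ?_⟩
      set R := max 1 (64 * (c1 + 1) / η) with hRd
      have hR1 : 1 ≤ R := le_max_left _ _
      have hR2 : 64 * (c1 + 1) / η ≤ R := le_max_right _ _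
      have h1 : R ^ 2 / 32 ≤ Real.exp (R ^ 2 / 32) := by
        have := Real.add_one_le_exp (R ^ 2 / 32)
        linarith
      have h2 : R / 32 ≤ Real.exp (R ^ 2 / 32) := by
        refine le_trans ?_ h1
        have : R ≤ R ^ 2 := by nlinarith
        linarith
      rw [Real.exp_neg]
      have h3 : 0 < Real.exp (R ^ 2 / 32) := Real.exp_pos _
      rw [inv_mul_le_iff₀ h3]
      have h4 : 64 * (c1 + 1) ≤ R * η := by
        rwa [div_le_iff₀ hη] at hR2
      nlinarith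
    obtain ⟨R, hR1, hR2⟩ := hR
    have hK : ∃ K0 : ℕ, 17 * Real.pi * (1 / 2 : ℝ) ^ K0 ≤ η / 2 := by
      obtain ⟨K0, hK0⟩ := exists_pow_lt_of_lt_one
        (show (0 : ℝ) < η / 2 / (17 * Real.pi) by positivity) (show (1 / 2 : ℝ) < 1 by norm_num)
      refine ⟨K0, ?_⟩
      have h3 : (0 : ℝ) < 17 * Real.pi := by positivity
      rw [lt_div_iff₀ h3] at hK0
      linarith
    obtain ⟨K0, hK0⟩ := hK
    refine ⟨R, hR1, K0, fun K b hKK => ?_⟩
    have hS : MeasurableSet {z : ℝ × ℝ | 0 < z.1 ∧ z.1 < 1 / 2 ∧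
        R * (1 / 2) ^ K < |yy K b z.1 - z.2|} := by
      have hm3 : Measurable fun z : ℝ × ℝ => |yy K b z.1 - z.2| := by
        unfold yy
        fun_prop
      exact (measurableSet_lt measurable_const measurable_fst).inter
        ((measurableSet_lt measurable_fst measurable_const).inter
          (measurableSet_lt measurable_const hm3))
    refine (strip K b _ hS (fun z hz => ⟨hz.1, hz.2.1⟩) (Real.exp (-(R ^ 2 / 32)))
      (Real.exp_pos _).le (fun z hz => ?_)).trans ?_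
    · rw [← Real.exp_add]
      apply Real.exp_le_exp.mpr
      have h1 : R * (1 / 2) ^ K < |yy K b z.1 - z.2| := hz.2.2
      have h2 : (0 : ℝ) < (1 / 2 : ℝ) ^ K := by positivity
      have h3 : (R * (1 / 2) ^ K) ^ 2 ≤ (yy K b z.1 - z.2) ^ 2 := by
        rw [← sq_abs (yy K b z.1 - z.2)]
        exact pow_le_pow_left₀ (by positivity) h1.le 2
      have h4 : (4 : ℝ) ^ K * (R * (1 / 2) ^ K) ^ 2 = R ^ 2 := by
        rw [mul_pow, ← pow_mul, mul_comm K 2, pow_mul, mul_comm (R ^ 2), ← mul_assoc, ← mul_pow]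
        norm_num
      have h5 : R ^ 2 ≤ 4 ^ K * (yy K b z.1 - z.2) ^ 2 := by
        rw [← h4]
        exact mul_le_mul_of_nonneg_left h3 (by positivity)
      linarith
    · apply ENNReal.ofReal_le_ofReal
      have h2 : (0 : ℝ) < (1 / 2 : ℝ) ^ K := by positivity
      apply mul_le_mul_of_nonneg_right _ h2.le
      have h3 : 17 * Real.pi * (1 / 2 : ℝ) ^ K ≤ 17 * Real.pi * (1 / 2 : ℝ) ^ K0 := by
        apply mul_le_mul_of_nonneg_left _ (by positivity)
        exact pow_le_pow_of_le_one (by norm_num) (by norm_num) hKK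
      linarith

end Pool.Agent.Q73.TG
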