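import Pool.Agent.Q73.TG.Stm

/-!
# T17: the case `q > 1` (helper52)
-/

namespace Pool.Agent.Q73.TG

open MeasureTheory Set Filter Topology
open scoped ENNReal

namespace T17P

lemma term_nonneg (K : ℕ) (hK : 1 ≤ K) (b : Fin K → Bool) (X Y : ℝ) : 0 ≤ term K b X Y := by
  unfold term
  apply Even.pow_nonneg
  rw [Nat.even_pow]
  exact ⟨by decide, by omega⟩

lemma FF_nonneg (K : ℕ) (hK : 1 ≤ K) (X Y : ℝ) : 0 ≤ FF K X Y :=
  Finset.sum_nonneg fun b _ => term_nonneg K hK b X Y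

lemma meas_term (K : ℕ) (b : Fin K → Bool) : Measurable fun z : ℝ × ℝ => term K b z.1 z.2 := by
  unfold term yy
  fun_prop

lemma meas_FF (K : ℕ) : Measurable fun z : ℝ × ℝ => FF K z.1 z.2 := by
  unfold FF
  exact Finset.measurable_sum _ fun b _ => meas_term K b

lemma muC_le : muC ≤ (volume : Measure (ℝ × ℝ)) := by
  have h : muC ≤ (volume : Measure (ℝ × ℝ)).withDensity 1 := by
    unfold muC
    refine withDensity_mono (Filter.Eventually.of_forall fun z => ?_)
    simp only [Pi.one_apply]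
    rw [← ENNReal.ofReal_one]
    apply ENNReal.ofReal_le_ofReal
    apply Real.rpow_le_one_of_one_le_of_nonpos
    · nlinarith [sq_nonneg z.1, sq_nonneg z.2]
    · norm_num
  rwa [withDensity_one] at h

lemma muC_univ : muC univ < ∞ := by
  have hi : Integrable (fun z : ℝ × ℝ => ((1 : ℝ) + ‖z‖ ^ 2) ^ (-(3 : ℝ) / 2)) := by
    apply integrable_rpow_neg_one_add_norm_sq
    simp
    norm_num
  unfold muC
  rw [withDensity_apply _ MeasurableSet.univ, Measure.restrict_univ]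
  refine lt_of_le_of_lt (lintegral_mono fun z => ?_) hi.lintegral_lt_top
  apply ENNReal.ofReal_le_ofReal
  have h1 : (0 : ℝ) < 1 + ‖z‖ ^ 2 := by positivity
  have h2 : 1 + ‖z‖ ^ 2 ≤ 1 + z.1 ^ 2 + z.2 ^ 2 := by
    have : ‖z‖ ^ 2 ≤ z.1 ^ 2 + z.2 ^ 2 := by
      rw [Prod.norm_def]
      rcases max_cases ‖z.1‖ ‖z.2‖ with h | h
      · rw [h.1, Real.norm_eq_abs, sq_abs]
        nlinarith [sq_nonneg z.2]
      · rw [h.1, Real.norm_eq_abs, sq_abs]
        nlinarith [sq_nonneg z.1]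
    linarith
  have h3 : (-(3 / 2) : ℝ) = -(3 : ℝ) / 2 := by norm_num
  rw [h3]
  exact Real.rpow_le_rpow_of_nonpos h1 h2 (by norm_num)

lemma holder {α : Type*} [MeasurableSpace α] (ν : Measure α) (g : α → ℝ≥0∞)
    (hg : AEMeasurable g ν) {s : ℝ} (h0 : 0 < s) (h1 : s < 1) :
    ∫⁻ x, g x ^ s ∂ν ≤ (∫⁻ x, g x ∂ν) ^ s * (ν univ) ^ (1 - s) := by
  have hc : (1 / s).HolderConjugate (1 / (1 - s)) := by
    rw [Real.holderConjugate_iff]
    refine ⟨?_, ?_⟩
    · rw [lt_div_iff₀ h0]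
      linarith
    · simp
  have h := ENNReal.lintegral_mul_le_Lp_mul_Lq ν hc (f := fun x => g x ^ s) (g := fun _ => 1)
    (hg.pow_const s) aemeasurable_const
  have e1 : ∀ x, (g x ^ s) ^ s⁻¹ = g x := by
    intro x
    rw [← ENNReal.rpow_mul, mul_inv_cancel₀ h0.ne', ENNReal.rpow_one]
  simp only [Pi.mul_apply, mul_one, one_div, e1, ENNReal.one_rpow, lintegral_one, inv_inv] at h
  exact h

lemma sum_int (K : ℕ) (hK : 1 ≤ K) (ν : Measure (ℝ × ℝ)) :
    ∫⁻ z, ENNReal.ofReal (FF K z.1 z.2) ∂ν =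
      ∑ b : Fin K → Bool, ∫⁻ z, ENNReal.ofReal (term K b z.1 z.2) ∂ν := by
  rw [← lintegral_finsetSum _ fun b _ => (meas_term K b).ennreal_ofReal]
  refine lintegral_congr fun z => ?_
  unfold FF
  rw [ENNReal.ofReal_sum_of_nonneg]
  intro b _
  exact term_nonneg K hK b _ _

lemma two_pow (K : ℕ) (c : ℝ) :
    ∑ _b : Fin K → Bool, ENNReal.ofReal (c * (1 / 2) ^ K) = ENNReal.ofReal c := by
  rw [Finset.sum_const, Finset.card_univ, Fintype.card_fun, Fintype.card_bool,
    Fintype.card_fin, nsmul_eq_mul]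
  have e : ((2 ^ K : ℕ) : ℝ≥0∞) = ENNReal.ofReal (2 ^ K) := by
    rw [ENNReal.ofReal_pow (by norm_num)]
    simp
  rw [e, ← ENNReal.ofReal_mul (by positivity)]
  congr 1
  have : (2 : ℝ) ^ K * (1 / 2) ^ K = 1 := by
    rw [← mul_pow]
    norm_num
  linear_combination c * this

lemma pow_eq (K : ℕ) (hK : 1 ≤ K) {q : ℝ} (hq : 0 ≤ q) (z : ℝ × ℝ) :
    ENNReal.ofReal (FF K z.1 z.2 ^ q) = ENNReal.ofReal (FF K z.1 z.2) ^ q := by
  rw [ENNReal.ofReal_rpow_of_nonneg (FF_nonneg K hK _ _) hq]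

end T17P

open T17P in
theorem t17 : T12 → T14 → T15 → T17 := by
  rintro ⟨C, hC, h12⟩ ⟨C', hC', h14⟩ ⟨c, hc, h15⟩ q hq η hη
  have hq0 : 0 < q := by linarith
  set m : ℝ := (muC univ).toReal with hm
  have hmu : muC univ = ENNReal.ofReal m := (ENNReal.ofReal_toReal muC_univ.ne).symm
  have hm0 : 0 ≤ m := ENNReal.toReal_nonneg
  have hlim : Tendsto (fun K : ℕ => C ^ q * m / η * (C' * 1 / K) ^ (q - 1)) atTop (𝓝 0) := by
    have h1 : Tendsto (fun K : ℕ => C' * 1 / (K : ℝ)) atTop (𝓝 0) :=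
      tendsto_const_div_atTop_nhds_zero_nat _
    have h2 := (h1.rpow_const (p := q - 1) (Or.inr (by linarith))).const_mul (C ^ q * m / η)
    rwa [Real.zero_rpow (by linarith), mul_zero] at h2
  obtain ⟨K0, hK0⟩ := eventually_atTop.mp (hlim.eventually_lt_const (Real.rpow_pos_of_pos hc q))
  refine ⟨max K0 1, fun K hK => ?_⟩
  have hK1 : 1 ≤ K := le_trans (le_max_right _ _) hK
  have hKK : K0 ≤ K := le_trans (le_max_left _ _) hK
  have hKR : (0 : ℝ) < K := by exact_mod_cast hK1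
  simp only [pow_eq K hK1 hq0.le]
  set f : ℝ × ℝ → ℝ≥0∞ := fun z => ENNReal.ofReal (FF K z.1 z.2) with hf
  have hfm : Measurable f := (meas_FF K).ennreal_ofReal
  -- upper bound over `chA`
  have hup : ∫⁻ z in chA, f z ^ q ∂muC ≤ ENNReal.ofReal (C ^ q * m) := by
    have hb : ∀ z ∈ chA, f z ^ q ≤ ENNReal.ofReal (C ^ q) := by
      intro z hz
      rw [hf]
      simp only
      rw [ENNReal.ofReal_rpow_of_nonneg (FF_nonneg K hK1 _ _) hq0.le]
      apply ENNReal.ofReal_le_ofReal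
      exact Real.rpow_le_rpow (FF_nonneg K hK1 _ _) (h12 K hK1 z.1 z.2 hz) hq0.le
    have hmA : MeasurableSet chA := by
      unfold chA
      apply MeasurableSet.union
      · exact measurableSet_lt measurable_const measurable_fst
      · have h1 : Measurable fun z : ℝ × ℝ => 2 * |z.1| + 2 := by
          have : Continuous fun z : ℝ × ℝ => 2 * |z.1| + 2 := by fun_prop
          exact this.measurable
        have h2 : Measurable fun z : ℝ × ℝ => |z.2| := by
          have : Continuous fun z : ℝ × ℝ => |z.2| := by fun_prop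
          exact this.measurable
        exact measurableSet_lt h1 h2
    calc ∫⁻ z in chA, f z ^ q ∂muC ≤ ∫⁻ _z in chA, ENNReal.ofReal (C ^ q) ∂muC :=
          setLIntegral_mono' hmA hb
      _ = ENNReal.ofReal (C ^ q) * muC chA := setLIntegral_const _ _
      _ ≤ ENNReal.ofReal (C ^ q) * muC univ := by
          gcongr
          exact subset_univ _
      _ = ENNReal.ofReal (C ^ q * m) := by
          rw [hmu, ENNReal.ofReal_mul (by positivity)]
  -- lower bound over `GG K 1`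
  have hlow : ENNReal.ofReal c ≤ ∫⁻ z in GG K 1, f z ∂muC := by
    rw [hf]
    simp only
    rw [sum_int K hK1, ← two_pow K c]
    refine Finset.sum_le_sum fun b _ => le_trans (h15 K b hK1).1 ?_
    apply lintegral_mono_set
    intro z hz
    exact ⟨hz.1, hz.2.1, b, by simpa using hz.2.2⟩
  have hG : muC (GG K 1) ≤ ENNReal.ofReal (C' * 1 / K) :=
    le_trans (muC_le _) (h14 K 1 hK1 le_rfl)
  have hq1 : 1 / q < 1 := by
    rw [div_lt_one hq0]
    exact hq
  have hH := holder (muC.restrict (GG K 1)) (fun z => f z ^ q) (hfm.pow_const q).aemeasurable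
    (s := 1 / q) (by positivity) hq1
  have e1 : ∀ z, (f z ^ q) ^ (1 / q) = f z := by
    intro z
    rw [← ENNReal.rpow_mul, mul_one_div_cancel hq0.ne', ENNReal.rpow_one]
  simp only [e1] at hH
  rw [Measure.restrict_apply_univ] at hH
  set I : ℝ≥0∞ := ∫⁻ z, f z ^ q ∂muC with hI
  have h3 : ENNReal.ofReal c ≤ I ^ (1 / q) * ENNReal.ofReal (C' * 1 / K) ^ (1 - 1 / q) := by
    refine le_trans hlow (le_trans hH ?_)
    gcongr
    exact setLIntegral_le_lintegral _ _
  have h4 : ENNReal.ofReal (c ^ q) ≤ I * ENNReal.ofReal ((C' * 1 / K) ^ (q - 1)) := by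
    have h5 := ENNReal.rpow_le_rpow h3 hq0.le
    rw [ENNReal.mul_rpow_of_nonneg _ _ hq0.le, ← ENNReal.rpow_mul, ← ENNReal.rpow_mul,
      one_div_mul_cancel hq0.ne', ENNReal.rpow_one] at h5
    have e2 : (1 - 1 / q) * q = q - 1 := by
      field_simp
    rw [e2, ENNReal.ofReal_rpow_of_nonneg hc.le hq0.le,
      ENNReal.ofReal_rpow_of_nonneg (by positivity) (by linarith)] at h5
    exact h5
  refine lt_of_le_of_lt hup ?_
  by_contra hcon
  rw [not_lt] at hcon
  -- so `I ≤ C ^ q m / η`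
  have h6 : I ≤ ENNReal.ofReal (C ^ q * m / η) := by
    rw [ENNReal.ofReal_div_of_pos hη, ENNReal.le_div_iff_mul_le (Or.inl (by simpa using hη))
      (Or.inl ENNReal.ofReal_ne_top), mul_comm]
    exact hcon
  have h7 : ENNReal.ofReal (c ^ q) ≤
      ENNReal.ofReal (C ^ q * m / η * (C' * 1 / K) ^ (q - 1)) := by
    rw [ENNReal.ofReal_mul (by positivity)]
    exact le_trans h4 (by gcongr)
  rw [ENNReal.ofReal_le_ofReal_iff (by positivity)] at h7
  exact absurd (hK0 K hKK) (not_lt.mpr h7)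

end Pool.Agent.Q73.TG
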