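import Pool.Agent.Q73.TG.T17

/-!
# T18: the case `0 < q < 1` (helper52)
-/

namespace Pool.Agent.Q73.TG

open MeasureTheory Set Filter Topology
open scoped ENNReal

namespace T18P

open T17P

/-- the strip -/
def VV : Set (ℝ × ℝ) := {z | 0 < z.1 ∧ z.1 < 1 / 2}

/-- the outer region -/
def ZZ : Set (ℝ × ℝ) := {z | 2 * |z.1| + 2 < |z.2|}

lemma meas_ZZ : MeasurableSet ZZ := by
  have h1 : Measurable fun z : ℝ × ℝ => 2 * |z.1| + 2 := by
    have : Continuous fun z : ℝ × ℝ => 2 * |z.1| + 2 := by fun_prop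
    exact this.measurable
  have h2 : Measurable fun z : ℝ × ℝ => |z.2| := by
    have : Continuous fun z : ℝ × ℝ => |z.2| := by fun_prop
    exact this.measurable
  exact measurableSet_lt h1 h2

/-- A set integral of `f ^ q`, `q < 1`, is bounded by a power of the integral of `f`. -/
lemma conc (f : ℝ × ℝ → ℝ≥0∞) (hf : Measurable f) (S : Set (ℝ × ℝ)) {q : ℝ} (h0 : 0 < q)
    (h1 : q < 1) {a m : ℝ} (ha : 0 ≤ a) (hm : 0 ≤ m)
    (h : ∫⁻ z in S, f z ∂muC ≤ ENNReal.ofReal a) (hS : muC S ≤ ENNReal.ofReal m) :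
    ∫⁻ z in S, f z ^ q ∂muC ≤ ENNReal.ofReal (a ^ q * m ^ (1 - q)) := by
  have hH := holder (muC.restrict S) f hf.aemeasurable h0 h1
  rw [Measure.restrict_apply_univ] at hH
  refine le_trans hH ?_
  rw [ENNReal.ofReal_mul (by positivity), ← ENNReal.ofReal_rpow_of_nonneg ha h0.le,
    ← ENNReal.ofReal_rpow_of_nonneg hm (by linarith)]
  gcongr

end T18P

open T17P T18P in
theorem t18 : T12 → T13 → T14 → T15 → T16 → T18 := by
  rintro ⟨C, hC, h12⟩ h13 ⟨C1, hC1, h14⟩ ⟨c, hc, h15⟩ ⟨⟨C2, hC2, h16⟩, h16'⟩ q hq0 hq1 η hη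
  set m : ℝ := (muC univ).toReal with hm
  have hmu : muC univ = ENNReal.ofReal m := (ENNReal.ofReal_toReal muC_univ.ne).symm
  have hm0 : 0 ≤ m := ENNReal.toReal_nonneg
  have h1q : 0 < 1 - q := by linarith
  -- the lower bound is `I0`
  set I0 : ℝ := c / C ^ (1 - q) with hI0
  have hI0' : 0 < I0 := by positivity
  set ε : ℝ := η * I0 with hε
  have hε0 : 0 < ε := by positivity
  -- choice of `η'`
  set t : ℝ := ε / (4 * (m + m ^ (1 - q) + 1)) with ht
  have hden : 0 < m + m ^ (1 - q) + 1 := by positivity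
  have ht0 : 0 < t := by positivity
  set δ : ℝ := t ^ (1 / q) with hδ
  have hδ0 : 0 < δ := by positivity
  have hδq : δ ^ q = t := by
    rw [hδ, ← Real.rpow_mul ht0.le, one_div_mul_cancel hq0.ne', Real.rpow_one]
  have ht1 : t * m ≤ ε / 4 := by
    have e : ε / 4 = t * (m + m ^ (1 - q) + 1) := by
      rw [ht]
      field_simp
    rw [e]
    apply mul_le_mul_of_nonneg_left _ ht0.le
    have : 0 ≤ m ^ (1 - q) := by positivity
    linarith
  have ht2 : t * m ^ (1 - q) ≤ ε / 4 := by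
    have e : ε / 4 = t * (m + m ^ (1 - q) + 1) := by
      rw [ht]
      field_simp
    rw [e]
    apply mul_le_mul_of_nonneg_left _ ht0.le
    linarith
  obtain ⟨K1, hK1⟩ := h13 δ hδ0
  obtain ⟨R, hR, K2, hK2⟩ := h16' δ hδ0
  have hlim : Tendsto (fun K : ℕ => C2 ^ q * (C1 * R / K) ^ (1 - q)) atTop (𝓝 0) := by
    have h1 : Tendsto (fun K : ℕ => C1 * R / (K : ℝ)) atTop (𝓝 0) :=
      tendsto_const_div_atTop_nhds_zero_nat _
    have h2 := (h1.rpow_const (p := 1 - q) (Or.inr h1q.le)).const_mul (C2 ^ q)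
    rwa [Real.zero_rpow h1q.ne', mul_zero] at h2
  obtain ⟨K3, hK3⟩ := eventually_atTop.mp
    (hlim.eventually_lt_const (show (0 : ℝ) < ε / 4 by positivity))
  refine ⟨max 1 (max K1 (max K2 K3)), fun K hK => ?_⟩
  have g0 : 1 ≤ K := le_trans (le_max_left _ _) hK
  have g1 : K1 ≤ K := le_trans (le_trans (le_max_left _ _) (le_max_right _ _)) hK
  have g2 : K2 ≤ K :=
    le_trans (le_trans (le_trans (le_max_left _ _) (le_max_right _ _)) (le_max_right _ _)) hK
  have g3 : K3 ≤ K :=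
    le_trans (le_trans (le_trans (le_max_right _ _) (le_max_right _ _)) (le_max_right _ _)) hK
  have hKR : (0 : ℝ) < K := by exact_mod_cast g0
  simp only [pow_eq K g0 hq0.le]
  set f : ℝ × ℝ → ℝ≥0∞ := fun z => ENNReal.ofReal (FF K z.1 z.2) with hf
  have hfm : Measurable f := (meas_FF K).ennreal_ofReal
  set I : ℝ≥0∞ := ∫⁻ z, f z ^ q ∂muC with hI
  -- lower bound
  have hlow : ENNReal.ofReal I0 ≤ I := by
    have hb : ∀ z ∈ {z : ℝ × ℝ | 2 < z.1 ∧ z.1 < 3},
        f z ≤ ENNReal.ofReal (C ^ (1 - q)) * f z ^ q := by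
      intro z hz
      have hFC : FF K z.1 z.2 ≤ C := h12 K g0 z.1 z.2 (Or.inl hz.1)
      have hF0 := FF_nonneg K g0 z.1 z.2
      rw [hf]
      simp only
      rw [ENNReal.ofReal_rpow_of_nonneg hF0 hq0.le, ← ENNReal.ofReal_mul (by positivity)]
      apply ENNReal.ofReal_le_ofReal
      rcases hF0.eq_or_lt with h | h
      · rw [← h]
        positivity
      · calc FF K z.1 z.2 = FF K z.1 z.2 ^ (1 - q) * FF K z.1 z.2 ^ q := by
              rw [← Real.rpow_add h, sub_add_cancel, Real.rpow_one]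
          _ ≤ C ^ (1 - q) * FF K z.1 z.2 ^ q := by
              gcongr
    have hS : MeasurableSet {z : ℝ × ℝ | 2 < z.1 ∧ z.1 < 3} :=
      (measurableSet_lt measurable_const measurable_fst).inter
        (measurableSet_lt measurable_fst measurable_const)
    have h1 : ENNReal.ofReal c ≤ ∫⁻ z in {z : ℝ × ℝ | 2 < z.1 ∧ z.1 < 3}, f z ∂muC := by
      rw [hf]
      simp only
      rw [sum_int K g0, ← two_pow K c]
      exact Finset.sum_le_sum fun b _ => (h15 K b g0).2
    have h2 : ENNReal.ofReal c ≤ ENNReal.ofReal (C ^ (1 - q)) * I := by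
      refine le_trans h1 (le_trans (setLIntegral_mono' hS hb) ?_)
      rw [lintegral_const_mul _ (hfm.pow_const q)]
      gcongr
      exact setLIntegral_le_lintegral _ _
    have hCp : 0 < C ^ (1 - q) := by positivity
    rw [hI0, ENNReal.ofReal_div_of_pos hCp]
    apply ENNReal.div_le_of_le_mul
    rwa [mul_comm]
  -- upper bounds
  have hu1 : ∫⁻ z in ZZ, f z ^ q ∂muC ≤ ENNReal.ofReal (ε / 4) := by
    have hb : ∀ z ∈ ZZ, f z ^ q ≤ ENNReal.ofReal t := by
      intro z hz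
      rw [hf]
      simp only
      rw [ENNReal.ofReal_rpow_of_nonneg (FF_nonneg K g0 _ _) hq0.le, ← hδq]
      apply ENNReal.ofReal_le_ofReal
      exact Real.rpow_le_rpow (FF_nonneg K g0 _ _) (hK1 K g1 z.1 z.2 hz) hq0.le
    calc ∫⁻ z in ZZ, f z ^ q ∂muC ≤ ∫⁻ _z in ZZ, ENNReal.ofReal t ∂muC :=
          setLIntegral_mono' meas_ZZ hb
      _ = ENNReal.ofReal t * muC ZZ := setLIntegral_const _ _
      _ ≤ ENNReal.ofReal t * muC univ := by
          gcongr
          exact subset_univ _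
      _ = ENNReal.ofReal (t * m) := by rw [hmu, ENNReal.ofReal_mul ht0.le]
      _ ≤ ENNReal.ofReal (ε / 4) := ENNReal.ofReal_le_ofReal ht1
  have hu2 : ∫⁻ z in GG K R, f z ^ q ∂muC ≤ ENNReal.ofReal (ε / 4) := by
    have hG : muC (GG K R) ≤ ENNReal.ofReal (C1 * R / K) :=
      le_trans (muC_le _) (h14 K R g0 hR)
    have hI2 : ∫⁻ z in GG K R, f z ∂muC ≤ ENNReal.ofReal C2 := by
      rw [hf]
      simp only
      rw [sum_int K g0, ← two_pow K C2]
      refine Finset.sum_le_sum fun b _ => le_trans ?_ (h16 K b g0)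
      exact lintegral_mono_set fun z hz => ⟨hz.1, hz.2.1⟩
    have hR0 : 0 ≤ C1 * R / K := by positivity
    refine le_trans (conc f hfm _ hq0 hq1 hC2.le hR0 hI2 hG) (ENNReal.ofReal_le_ofReal ?_)
    exact (hK3 K g3).le
  have hu3 : ∫⁻ z in VV \ GG K R, f z ^ q ∂muC ≤ ENNReal.ofReal (ε / 4) := by
    have hG : muC (VV \ GG K R) ≤ ENNReal.ofReal m := by
      rw [← hmu]
      exact measure_mono (subset_univ _)
    have hI3 : ∫⁻ z in VV \ GG K R, f z ∂muC ≤ ENNReal.ofReal δ := by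
      rw [hf]
      simp only
      rw [sum_int K g0, ← two_pow K δ]
      refine Finset.sum_le_sum fun b _ => le_trans ?_ (hK2 K b g2)
      refine lintegral_mono_set fun z hz => ⟨hz.1.1, hz.1.2, ?_⟩
      by_contra hcon
      exact hz.2 ⟨hz.1.1, hz.1.2, b, not_lt.mp hcon⟩
    refine le_trans (conc f hfm _ hq0 hq1 hδ0.le hm0 hI3 hG) (ENNReal.ofReal_le_ofReal ?_)
    rw [hδq]
    exact ht2
  have hsub : chB ⊆ (GG K R ∪ VV \ GG K R) ∪ ZZ := by
    intro z hz
    rcases hz with hz | hz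
    · left
      by_cases hg : z ∈ GG K R
      · exact Or.inl hg
      · exact Or.inr ⟨hz, hg⟩
    · exact Or.inr hz
  calc ∫⁻ z in chB, f z ^ q ∂muC
      ≤ ∫⁻ z in (GG K R ∪ VV \ GG K R) ∪ ZZ, f z ^ q ∂muC := lintegral_mono_set hsub
    _ ≤ ∫⁻ z in GG K R ∪ VV \ GG K R, f z ^ q ∂muC + ∫⁻ z in ZZ, f z ^ q ∂muC :=
        lintegral_union_le _ _ _
    _ ≤ (∫⁻ z in GG K R, f z ^ q ∂muC + ∫⁻ z in VV \ GG K R, f z ^ q ∂muC) +
          ∫⁻ z in ZZ, f z ^ q ∂muC := by
        gcongr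
        exact lintegral_union_le _ _ _
    _ ≤ (ENNReal.ofReal (ε / 4) + ENNReal.ofReal (ε / 4)) + ENNReal.ofReal (ε / 4) := by
        gcongr
    _ = ENNReal.ofReal (3 * ε / 4) := by
        rw [← ENNReal.ofReal_add (by positivity) (by positivity),
          ← ENNReal.ofReal_add (by positivity) (by positivity)]
        congr 1
        ring
    _ < ENNReal.ofReal ε := by
        rw [ENNReal.ofReal_lt_ofReal_iff hε0]
        linarith
    _ = ENNReal.ofReal η * ENNReal.ofReal I0 := by rw [hε, ENNReal.ofReal_mul hη.le]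
    _ ≤ ENNReal.ofReal η * I := by gcongr

end Pool.Agent.Q73.TG
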