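import Pool.Agent.Q73.TG.Asm

namespace Pool.Agent.Q73.TG

open MeasureTheory Set
open scoped ENNReal ContDiff

namespace T19w

lemma coe_smul (t : ℝ) (x : E 2) (i : Fin 3) : (t • x) i = t * x i := rfl

lemma mem_setA_smul {t : ℝ} (ht : t ≠ 0) (x : E 2) : t • x ∈ setA ↔ x ∈ setA := by
  have ht2 : 0 < t ^ 2 := by positivity
  have hta : 0 < |t| := abs_pos.mpr ht
  simp only [setA, mem_ofPred_eq, coe_smul, abs_mul]
  have a1 : (2 * (t * x 2) ^ 2 < t * x 0 * (t * x 2)) ↔ (2 * (x 2) ^ 2 < x 0 * x 2) := by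
    rw [show 2 * (t * x 2) ^ 2 = t ^ 2 * (2 * (x 2) ^ 2) by ring,
      show t * x 0 * (t * x 2) = t ^ 2 * (x 0 * x 2) by ring, mul_lt_mul_iff_right₀ ht2]
  have a2 : (2 * (|t| * |x 0|) + 2 * (|t| * |x 2|) < |t| * |x 1|) ↔
      (2 * |x 0| + 2 * |x 2| < |x 1|) := by
    rw [show 2 * (|t| * |x 0|) + 2 * (|t| * |x 2|) = |t| * (2 * |x 0| + 2 * |x 2|) by ring,
      mul_lt_mul_iff_right₀ hta]
  rw [a1, a2]

lemma mem_setB_smul {t : ℝ} (ht : t ≠ 0) (x : E 2) : t • x ∈ setB ↔ x ∈ setB := by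
  have ht2 : 0 < t ^ 2 := by positivity
  have hta : 0 < |t| := abs_pos.mpr ht
  simp only [setB, mem_ofPred_eq, coe_smul, abs_mul]
  have a1 : (0 < t * x 0 * (t * x 2)) ↔ (0 < x 0 * x 2) := by
    rw [show t * x 0 * (t * x 2) = t ^ 2 * (x 0 * x 2) by ring, mul_pos_iff_of_pos_left ht2]
  have a3 : (2 * (t * x 0 * (t * x 2)) < (t * x 2) ^ 2) ↔ (2 * (x 0 * x 2) < (x 2) ^ 2) := by
    rw [show 2 * (t * x 0 * (t * x 2)) = t ^ 2 * (2 * (x 0 * x 2)) by ring,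
      show (t * x 2) ^ 2 = t ^ 2 * (x 2) ^ 2 by ring, mul_lt_mul_iff_right₀ ht2]
  have a2 : (2 * (|t| * |x 0|) + 2 * (|t| * |x 2|) < |t| * |x 1|) ↔
      (2 * |x 0| + 2 * |x 2| < |x 1|) := by
    rw [show 2 * (|t| * |x 0|) + 2 * (|t| * |x 2|) = |t| * (2 * |x 0| + 2 * |x 2|) by ring,
      mul_lt_mul_iff_right₀ hta]
  rw [a1, a2, a3]

lemma pt_mem_setA (X Y : ℝ) : pt X Y ∈ setA ↔ (X, Y) ∈ chA := by
  have h0 : pt X Y 0 = X := rfl
  have h1 : pt X Y 1 = Y := rfl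
  have h2 : pt X Y 2 = 1 := rfl
  simp [setA, chA, h0, h1, h2]

lemma pt_mem_setB (X Y : ℝ) : pt X Y ∈ setB ↔ (X, Y) ∈ chB := by
  have h0 : pt X Y 0 = X := rfl
  have h1 : pt X Y 1 = Y := rfl
  have h2 : pt X Y 2 = 1 := rfl
  simp only [setB, chB, mem_ofPred_eq, h0, h1, h2, mul_one, one_pow, abs_one]
  constructor
  · rintro (⟨a, b⟩ | h)
    · left; exact ⟨a, by linarith⟩
    · right; exact h
  · rintro (⟨a, b⟩ | h)
    · left; exact ⟨a, by linarith⟩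
    · right; exact h

lemma norm_pt (X Y : ℝ) : ‖pt X Y‖ ^ 2 = 1 + X ^ 2 + Y ^ 2 := by
  rw [EuclideanSpace.norm_sq_eq, Fin.sum_univ_three]
  simp [pt]; ring

lemma norm_nu (K : ℕ) (b : Fin K → Bool) : ‖nu K b‖ ^ 2 = 1 + aa K b ^ 2 + bb K b ^ 2 := by
  rw [EuclideanSpace.norm_sq_eq, Fin.sum_univ_three]
  simp [nu]; ring

lemma inner_nu (K : ℕ) (b : Fin K → Bool) (X Y : ℝ) :
    inner ℝ (nu K b) (pt X Y) = yy K b X - Y := by
  rw [PiLp.inner_apply, Fin.sum_univ_three]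
  simp [nu, pt, yy]; ring

lemma SS_pt (K : ℕ) (X Y : ℝ) :
    SS K (pt X Y) = (‖pt X Y‖ ^ 2) ^ (4 ^ K) * FF K X Y := by
  unfold SS FF
  rw [Finset.mul_sum]
  refine Finset.sum_congr rfl fun b _ => ?_
  unfold term
  rw [← mul_pow, inner_nu, norm_nu, norm_pt]
  congr 1
  have h1 : (0 : ℝ) < 1 + X ^ 2 + Y ^ 2 := by positivity
  have h2 : (0 : ℝ) < 1 + aa K b ^ 2 + bb K b ^ 2 := by positivity
  field_simp

/-- the 0-homogeneous square function. -/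
noncomputable def FS (K : ℕ) (x : E 2) : ℝ := SS K x / (‖x‖ ^ 2) ^ (4 ^ K)

lemma FS_smul (K : ℕ) {t : ℝ} (ht : t ≠ 0) (x : E 2) : FS K (t • x) = FS K x := by
  unfold FS
  rw [Asm.SS_smul, norm_smul, mul_pow, Real.norm_eq_abs, sq_abs, mul_pow, ← pow_mul]
  exact mul_div_mul_left _ _ (pow_ne_zero _ ht)

lemma FS_pt (K : ℕ) (X Y : ℝ) : FS K (pt X Y) = FF K X Y := by
  unfold FS
  rw [SS_pt]
  refine mul_div_cancel_left₀ _ (pow_ne_zero _ ?_)
  rw [norm_pt]; positivity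

lemma FS_sphere (K : ℕ) (x : Sph 2) : FS K (x : E 2) = SS K (x : E 2) := by
  unfold FS
  have : ‖(x : E 2)‖ = 1 := by simpa using x.2
  rw [this]; simp

lemma measurable_FS (K : ℕ) : Measurable (FS K) := by
  unfold FS
  have := (Asm.continuous_SS K).measurable
  fun_prop

lemma core (h8 : T8) (q : ℝ) (B : Set (E 2)) (ch : Set (ℝ × ℝ)) (hBm : MeasurableSet B)
    (hchm : MeasurableSet ch)
    (hB : ∀ t : ℝ, t ≠ 0 → ∀ x : E 2, t • x ∈ B ↔ x ∈ B)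
    (hch : ∀ X Y, pt X Y ∈ B ↔ (X, Y) ∈ ch)
    (h : ∀ η > (0 : ℝ), ∃ K0 : ℕ, ∀ K : ℕ, K0 ≤ K →
      ∫⁻ z in ch, ENNReal.ofReal (FF K z.1 z.2 ^ q) ∂muC
        < ENNReal.ofReal η * ∫⁻ z, ENNReal.ofReal (FF K z.1 z.2 ^ q) ∂muC) :
    ∀ η > (0 : ℝ), ∃ K0 : ℕ, ∀ K : ℕ, K0 ≤ K →
  ∫⁻ x in {x : Sph 2 | (x : E 2) ∈ B},
      ENNReal.ofReal (SS K (x : E 2) ^ q) ∂(vol 2)
    < ENNReal.ofReal η * ∫⁻ x : Sph 2, ENNReal.ofReal (SS K (x : E 2) ^ q) ∂(vol 2) := by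
  intro η hη
  obtain ⟨K0, hK0⟩ := h η hη
  refine ⟨K0, fun K hK => ?_⟩
  have hK1 := hK0 K hK
  set G : E 2 → ℝ≥0∞ := fun x => ENNReal.ofReal (FS K x ^ q) with hG
  have hGm : Measurable G := by
    have := measurable_FS K
    exact ENNReal.measurable_ofReal.comp (this.pow_const q)
  have hGt : ∀ t : ℝ, t ≠ 0 → ∀ x, G (t • x) = G x := by
    intro t ht x; simp only [hG]; rw [FS_smul K ht]
  have e1 := h8 G hGm hGt
  have e2 := h8 (B.indicator G) (hGm.indicator hBm) (by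
    intro t ht x
    by_cases hx : x ∈ B
    · rw [indicator_of_mem ((hB t ht x).mpr hx), indicator_of_mem hx, hGt t ht x]
    · rw [indicator_of_notMem (fun h => hx ((hB t ht x).mp h)), indicator_of_notMem hx])
  have hms : MeasurableSet {x : Sph 2 | (x : E 2) ∈ B} := measurable_subtype_coe hBm
  have e3 : ∫⁻ x in {x : Sph 2 | (x : E 2) ∈ B}, ENNReal.ofReal (SS K (x : E 2) ^ q) ∂(vol 2)
      = ∫⁻ x : Sph 2, B.indicator G (x : E 2) ∂(vol 2) := by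
    rw [← lintegral_indicator hms]
    refine lintegral_congr fun x => ?_
    by_cases hx : (x : E 2) ∈ B
    · rw [indicator_of_mem (show x ∈ {x : Sph 2 | (x : E 2) ∈ B} from hx), indicator_of_mem hx]
      simp only [hG]; rw [FS_sphere]
    · rw [indicator_of_notMem (show x ∉ {x : Sph 2 | (x : E 2) ∈ B} from hx),
        indicator_of_notMem hx]
  have e4 : ∫⁻ x : Sph 2, ENNReal.ofReal (SS K (x : E 2) ^ q) ∂(vol 2)
      = ∫⁻ x : Sph 2, G (x : E 2) ∂(vol 2) := by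
    refine lintegral_congr fun x => ?_
    simp only [hG]; rw [FS_sphere]
  have e5 : ∫⁻ z : ℝ × ℝ, B.indicator G (pt z.1 z.2) ∂muC
      = ∫⁻ z in ch, ENNReal.ofReal (FF K z.1 z.2 ^ q) ∂muC := by
    rw [← lintegral_indicator hchm]
    refine lintegral_congr fun z => ?_
    by_cases hz : z ∈ ch
    · rw [indicator_of_mem hz, indicator_of_mem ((hch z.1 z.2).mpr hz)]
      simp only [hG]; rw [FS_pt]
    · rw [indicator_of_notMem hz, indicator_of_notMem (fun h => hz ((hch z.1 z.2).mp h))]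
  have e6 : ∫⁻ z : ℝ × ℝ, G (pt z.1 z.2) ∂muC = ∫⁻ z, ENNReal.ofReal (FF K z.1 z.2 ^ q) ∂muC := by
    refine lintegral_congr fun z => ?_
    simp only [hG]; rw [FS_pt]
  rw [e3, e2, e5, e4, e1, e6, ← mul_assoc, mul_comm (ENNReal.ofReal η), mul_assoc]
  exact ENNReal.mul_lt_mul_right (by norm_num) (by norm_num) hK1

lemma meas_chA : MeasurableSet chA := by
  have a : IsOpen {z : ℝ × ℝ | 2 < z.1} := isOpen_lt (by fun_prop) (by fun_prop)
  have b : IsOpen {z : ℝ × ℝ | 2 * |z.1| + 2 < |z.2|} := isOpen_lt (by fun_prop) (by fun_prop)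
  exact (a.union b).measurableSet

lemma meas_chB : MeasurableSet chB := by
  have a : IsOpen {z : ℝ × ℝ | 0 < z.1} := isOpen_lt (by fun_prop) (by fun_prop)
  have a' : IsOpen {z : ℝ × ℝ | z.1 < 1 / 2} := isOpen_lt (by fun_prop) (by fun_prop)
  have b : IsOpen {z : ℝ × ℝ | 2 * |z.1| + 2 < |z.2|} := isOpen_lt (by fun_prop) (by fun_prop)
  exact ((a.inter a').union b).measurableSet

end T19w

theorem t19 (h8 : T8) (h17 : T17) (h18 : T18) : T19 := by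
  intro q hq hq1
  by_cases h : 1 < q
  · simp only [if_pos h]
    exact T19w.core h8 q setA chA Asm.isOpen_setA.measurableSet T19w.meas_chA
      (fun t ht x => T19w.mem_setA_smul ht x) T19w.pt_mem_setA (h17 q h)
  · simp only [if_neg h]
    exact T19w.core h8 q setB chB Asm.isOpen_setB.measurableSet T19w.meas_chB
      (fun t ht x => T19w.mem_setB_smul ht x) T19w.pt_mem_setB
      (h18 q hq (lt_of_le_of_ne (not_lt.mp h) hq1))

end Pool.Agent.Q73.TG
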