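import Pool.Agent.Q73.TG.Asm

namespace Pool.Agent.Q73.TG

open MeasureTheory Set
open scoped ENNReal ContDiff

namespace T5w

/-- extension by zeros. -/
noncomputable def lift {n : ℕ} (w : E 2) : E (n + 2) :=
  WithLp.toLp 2 (fun i : Fin (n + 2 + 1) => if h : (i : ℕ) < 3 then w ⟨i, h⟩ else 0)

lemma sum_aux {n : ℕ} (f : Fin (n + 2 + 1) → ℝ) (h : ∀ i : Fin (n + 2 + 1), ¬ (i : ℕ) < 3 → f i = 0) :
    ∑ j : Fin 3, f (Fin.castLE (by omega) j) = ∑ i, f i := by
  refine Fintype.sum_of_injective (Fin.castLE (by omega)) (Fin.castLE_injective _) _ _ ?_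
    (fun _ => rfl)
  intro i hi
  apply h
  intro h3
  exact hi ⟨⟨i, h3⟩, by ext; rfl⟩

lemma inner_lift {n : ℕ} (w : E 2) (x : E (n + 2)) :
    inner ℝ (lift w : E (n + 2)) x = inner ℝ w (pi3 x) := by
  rw [PiLp.inner_apply, PiLp.inner_apply, ← sum_aux]
  · refine Finset.sum_congr rfl fun j _ => ?_
    simp [lift, pi3]
  · intro i hi
    simp only [lift]
    rw [dif_neg hi]
    simp

lemma pi3_lift {n : ℕ} (w : E 2) : pi3 (lift w : E (n + 2)) = w := by
  ext j
  simp [lift, pi3]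

lemma norm_lift {n : ℕ} (w : E 2) : ‖(lift w : E (n + 2))‖ = ‖w‖ := by
  have h : ‖(lift w : E (n + 2))‖ ^ 2 = ‖w‖ ^ 2 := by
    rw [← real_inner_self_eq_norm_sq, ← real_inner_self_eq_norm_sq, inner_lift, pi3_lift]
  exact (sq_eq_sq₀ (norm_nonneg _) (norm_nonneg _)).mp h

end T5w

theorem t5 : T5 := by
  intro n ν hν
  have hfin : Module.finrank ℝ (ℝ ∙ ν)ᗮ = 2 := by
    have : Fact (Module.finrank ℝ (E 2) = 2 + 1) := ⟨by simp⟩
    exact Submodule.finrank_orthogonal_span_singleton hν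
  let B := (stdOrthonormalBasis ℝ (ℝ ∙ ν)ᗮ).reindex (finCongr hfin)
  have hB := B.orthonormal
  refine ⟨T5w.lift (B 0 : E 2), T5w.lift (B 1 : E 2), ?_, ?_, ?_, ?_⟩
  · rw [T5w.norm_lift]; exact hB.1 0
  · rw [T5w.norm_lift]; exact hB.1 1
  · rw [T5w.inner_lift, T5w.pi3_lift]
    exact hB.2 (by decide : (0 : Fin 2) ≠ 1)
  · intro x
    rw [T5w.inner_lift, T5w.inner_lift]
    set y := pi3 x with hy
    have h1 := Submodule.norm_sq_eq_add_norm_sq_projection y (ℝ ∙ ν)
    have h2 : ‖(ℝ ∙ ν)ᗮ.orthogonalProjectionOnto y‖ ^ 2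
        = (inner ℝ ((B 0 : (ℝ ∙ ν)ᗮ) : E 2) y) ^ 2 + (inner ℝ ((B 1 : (ℝ ∙ ν)ᗮ) : E 2) y) ^ 2 := by
      rw [← B.sum_sq_norm_inner_right, Fin.sum_univ_two]
      simp only [Real.norm_eq_abs, sq_abs]
      congr 2
      · exact Submodule.inner_orthogonalProjectionOnto_eq_of_mem_left (B 0) y
      · exact Submodule.inner_orthogonalProjectionOnto_eq_of_mem_left (B 1) y
    have hν2 : ‖ν‖ ≠ 0 := norm_ne_zero_iff.mpr hν
    have h3 : ‖(ℝ ∙ ν).orthogonalProjectionOnto y‖ ^ 2 = (inner ℝ ν y) ^ 2 / ‖ν‖ ^ 2 := by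
      rw [Submodule.coe_norm, Submodule.coe_orthogonalProjectionOnto_apply,
        Submodule.starProjection_singleton, norm_smul, mul_pow]
      simp only [Real.norm_eq_abs, sq_abs, RCLike.ofReal_real_eq_id, id_eq]
      field_simp
    rw [← h2, h1, h3]
    ring

theorem t11 : T11 := by
  intro n W hW
  have hcoord : ∀ (a : ℝ) (i j : Fin 3), ∃ x ∈ W, x ≠ 0 ∧ pi3 x i = a * pi3 x j := by
    intro a i j
    let f : W →ₗ[ℝ] ℝ :=
      { toFun := fun x => pi3 (x : E (n + 2)) i - a * pi3 (x : E (n + 2)) j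
        map_add' := by intro x y; simp [pi3]; ring
        map_smul' := by intro t x; simp [pi3]; ring }
    have hk : LinearMap.ker f ≠ ⊥ := by
      apply LinearMap.ker_ne_bot_of_finrank_lt
      rw [hW]; simp
    obtain ⟨x, hx, hx0⟩ := (Submodule.ne_bot_iff _).mp hk
    refine ⟨x, x.2, by simpa using hx0, ?_⟩
    have : pi3 (x : E (n + 2)) i - a * pi3 (x : E (n + 2)) j = 0 := hx
    linarith
  have hnorm : ∀ x : E (n + 2), x ∈ W → x ≠ 0 →
      (‖x‖⁻¹ • x ∈ W ∧ ‖‖x‖⁻¹ • x‖ = 1) := by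
    intro x hx hx0
    refine ⟨W.smul_mem _ hx, ?_⟩
    rw [norm_smul, norm_inv, norm_norm]
    exact inv_mul_cancel₀ (norm_ne_zero_iff.mpr hx0)
  constructor
  · obtain ⟨x, hx, hx0, h⟩ := hcoord 3 0 2
    obtain ⟨h1, h2⟩ := hnorm x hx hx0
    have ht : 0 < ‖x‖⁻¹ := inv_pos.mpr (norm_pos_iff.mpr hx0)
    refine ⟨_, h1, h2, ?_⟩
    rw [Asm.pi3_smul]
    set t := ‖x‖⁻¹
    by_cases hc2 : pi3 x 2 = 0
    · rw [hc2, mul_zero] at h
      by_cases hc1 : pi3 x 1 = 0
      · right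
        have : pi3 x = 0 := by
          ext i; fin_cases i
          · exact h
          · exact hc1
          · exact hc2
        rw [this]; norm_num
      · left; right
        have e : ∀ i, (t • pi3 x) i = t * pi3 x i := fun i => rfl
        simp only [e, h, hc2, mul_zero, abs_zero, add_zero]
        positivity
    · left; left
      have e : ∀ i, (t • pi3 x) i = t * pi3 x i := fun i => rfl
      simp only [e, h]
      have : 0 < (t * pi3 x 2) ^ 2 := by positivity
      nlinarith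
  · obtain ⟨x, hx, hx0, h⟩ := hcoord 4 2 0
    obtain ⟨h1, h2⟩ := hnorm x hx hx0
    have ht : 0 < ‖x‖⁻¹ := inv_pos.mpr (norm_pos_iff.mpr hx0)
    refine ⟨_, h1, h2, ?_⟩
    rw [Asm.pi3_smul]
    set t := ‖x‖⁻¹
    by_cases hc2 : pi3 x 0 = 0
    · rw [hc2, mul_zero] at h
      by_cases hc1 : pi3 x 1 = 0
      · right
        have : pi3 x = 0 := by
          ext i; fin_cases i
          · exact hc2
          · exact hc1
          · exact h
        rw [this]; norm_num
      · left; right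
        have e : ∀ i, (t • pi3 x) i = t * pi3 x i := fun i => rfl
        simp only [e, h, hc2, mul_zero, abs_zero, add_zero]
        positivity
    · left; left
      have e : ∀ i, (t • pi3 x) i = t * pi3 x i := fun i => rfl
      simp only [e, h]
      have : 0 < (t * pi3 x 0) ^ 2 := by positivity
      constructor <;> nlinarith

end Pool.Agent.Q73.TG
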