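import Pool.Agent.Q73.TG.Asm2
import Pool.Agent.Q73.TG.T1
import Pool.Agent.Q73.TG.T5
import Pool.Agent.Q73.TG.T14
import Pool.Agent.Q73.TG.T16
import Pool.Agent.Q73.TG.T17
import Pool.Agent.Q73.TG.T18
import Pool.Agent.Q73.TG.T19
import Pool.Agent.Q24.TG.T2
import Pool.Agent.Q24.TG.T3
import Pool.Agent.Q24.TG.T6
import Pool.Agent.Q24.TG.T15
import Pool.Agent.Q79.TG.T4
import Pool.Agent.Q79.TG.T7
import Pool.Agent.Q79.TG.T8
import Pool.Agent.Q79.TG.T9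
import Pool.Agent.Q79.TG.T12

namespace Pool.Agent.Q73.TG

theorem main : Main := by
  have h12 := Pool.Agent.Q79.TG.t12
  have h13 := Pool.Agent.Q79.TG.t13
  have h15 := Pool.Agent.Q24.TG.t15
  have h17 : T17 := t17 h12 t14 h15
  have h18 : T18 := t18 h12 h13 t14 h15 t16
  have h19 : T19 := t19 Pool.Agent.Q79.TG.t8 h17 h18
  have h3 : T3 := Pool.Agent.Q24.TG.t3 t1 Pool.Agent.Q24.TG.t2
  exact main_of h3 Pool.Agent.Q79.TG.t4 t5 Pool.Agent.Q24.TG.t6 Pool.Agent.Q79.TG.t9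
    Pool.Agent.Q79.TG.t10 t11 h19

end Pool.Agent.Q73.TG
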