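import Pool.Agent.Q73.TG.Stm

/-!
# Project TG: assembly
-/

namespace Pool.Agent.Q73.TG

open MeasureTheory Set
open scoped ENNReal ContDiff

/-- failure of the `L^p` Logvinenko-Sereda inequality for the fixed set `A`, along frequencies
tending to infinity. -/
def Fails {m : ℕ} (p : ℝ) (A : Set (Sph m)) : Prop :=
  ∀ η > (0 : ℝ), ∀ Λ : ℝ, ∃ lam : ℝ, 1 ≤ lam ∧ Λ ≤ lam ∧ ∃ e : Sph m → ℂ,
    IsEigenfunction lam e ∧ 0 < ∫ x, ‖e x‖ ^ p ∂(vol m) ∧
    ∫ x in A, ‖e x‖ ^ p ∂(vol m) < η * ∫ x, ‖e x‖ ^ p ∂(vol m)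

namespace Asm

lemma pi3_apply {n : ℕ} (x : E (n + 2)) (i : Fin 3) : pi3 x i = x (Fin.castLE (by omega) i) := rfl

lemma continuous_pi3 {n : ℕ} : Continuous (pi3 : E (n + 2) → E 2) := by
  unfold pi3
  refine (PiLp.continuous_toLp 2 _).comp ?_
  refine continuous_pi fun i => ?_
  exact (continuous_apply _).comp (PiLp.continuous_ofLp 2 _)

lemma pi3_smul {n : ℕ} (t : ℝ) (x : E (n + 2)) : pi3 (t • x) = t • pi3 x := by
  ext i; simp [pi3]

lemma isOpen_setA : IsOpen setA := by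
  have h (i : Fin 3) : Continuous fun x : E 2 => x i :=
    (continuous_apply _).comp (PiLp.continuous_ofLp 2 _)
  have h0 := h 0
  have h1 := h 1
  have h2 := h 2
  have a : IsOpen {x : E 2 | 2 * (x 2) ^ 2 < x 0 * x 2} :=
    isOpen_lt (by fun_prop) (by fun_prop)
  have b : IsOpen {x : E 2 | 2 * |x 0| + 2 * |x 2| < |x 1|} :=
    isOpen_lt (by fun_prop) (by fun_prop)
  exact a.union b

lemma isOpen_setB : IsOpen setB := by
  have h (i : Fin 3) : Continuous fun x : E 2 => x i :=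
    (continuous_apply _).comp (PiLp.continuous_ofLp 2 _)
  have h0 := h 0
  have h1 := h 1
  have h2 := h 2
  have a : IsOpen {x : E 2 | 0 < x 0 * x 2} :=
    isOpen_lt (by fun_prop) (by fun_prop)
  have a' : IsOpen {x : E 2 | 2 * (x 0 * x 2) < (x 2) ^ 2} :=
    isOpen_lt (by fun_prop) (by fun_prop)
  have b : IsOpen {x : E 2 | 2 * |x 0| + 2 * |x 2| < |x 1|} :=
    isOpen_lt (by fun_prop) (by fun_prop)
  exact (a.inter a').union b

/-- the set on `S^{n+2}`. -/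
def AA (n : ℕ) (B : Set (E 2)) : Set (Sph (n + 2)) :=
  {x | pi3 (x : E (n + 2)) ∈ B ∨ ‖pi3 (x : E (n + 2))‖ ^ 2 < 1 / 2}

lemma isOpen_AA {n : ℕ} {B : Set (E 2)} (hB : IsOpen B) : IsOpen (AA n B) := by
  have h1 : Continuous fun x : Sph (n + 2) => pi3 (x : E (n + 2)) :=
    continuous_pi3.comp continuous_subtype_val
  have h2 : IsOpen {x : Sph (n + 2) | ‖pi3 (x : E (n + 2))‖ ^ 2 < 1 / 2} :=
    isOpen_lt (by fun_prop) continuous_const
  exact (hB.preimage h1).union h2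

lemma tgcc_AA (h3 : T3) {n : ℕ} {B : Set (E 2)} (hB : IsOpen B)
    (h : ∀ (W : Submodule ℝ (E (n + 2))), Module.finrank ℝ W = 2 →
      (∃ x ∈ W, ‖x‖ = 1 ∧ (pi3 x ∈ B ∨ ‖pi3 x‖ ^ 2 < 1 / 2))) :
    TGCC (fun _ : ℝ => AA n B) := by
  refine h3 (n + 2) (AA n B) (isOpen_AA hB) ?_
  rintro γ ⟨W, hW, rfl⟩
  obtain ⟨x, hxW, hx1, hx⟩ := h W hW
  exact ⟨⟨x, by simpa using hx1⟩, hxW, hx⟩

lemma SS_nonneg (K : ℕ) (x : E 2) : 0 ≤ SS K x := by
  unfold SS
  refine Finset.sum_nonneg fun b _ => pow_nonneg ?_ _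
  rcases eq_or_ne (nu K b) 0 with h | h
  · simp [h]
  · rw [sub_nonneg, div_le_iff₀ (by positivity)]
    have := abs_real_inner_le_norm (nu K b) x
    calc (inner ℝ (nu K b) x) ^ 2 = |inner ℝ (nu K b) x| ^ 2 := (sq_abs _).symm
      _ ≤ (‖nu K b‖ * ‖x‖) ^ 2 := by gcongr
      _ = ‖x‖ ^ 2 * ‖nu K b‖ ^ 2 := by ring

lemma SS_smul (K : ℕ) (t : ℝ) (x : E 2) : SS K (t • x) = t ^ (2 * 4 ^ K) * SS K x := by
  unfold SS
  rw [Finset.mul_sum]
  refine Finset.sum_congr rfl fun b _ => ?_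
  rw [pow_mul, ← mul_pow]
  congr 1
  rw [norm_smul, inner_smul_right, mul_pow, mul_pow, Real.norm_eq_abs, sq_abs]
  ring

lemma continuous_SS (K : ℕ) : Continuous (SS K) := by
  unfold SS; fun_prop

instance (m : ℕ) : IsFiniteMeasure (vol m) := by unfold vol; infer_instance

instance (m : ℕ) : CompactSpace (Sph m) := Metric.sphere.compactSpace _ _

lemma ratio (h9 : T9) (h10 : T10) (h19 : T19) (n : ℕ) {q : ℝ} (hq : 0 < q) (hq1 : q ≠ 1)
    {η : ℝ} (hη : 0 < η) : ∃ K0 : ℕ, ∀ K : ℕ, K0 ≤ K →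
    ∫⁻ x in AA n (if 1 < q then setA else setB), ENNReal.ofReal (SS K (pi3 (x : E (n + 2))) ^ q)
        ∂(vol (n + 2))
      < ENNReal.ofReal η * ∫⁻ x : Sph (n + 2), ENNReal.ofReal (SS K (pi3 (x : E (n + 2))) ^ q)
        ∂(vol (n + 2)) := by
  set B : Set (E 2) := if 1 < q then setA else setB with hB
  have hBo : IsOpen B := by
    rw [hB]; split_ifs
    · exact isOpen_setA
    · exact isOpen_setB
  have hBc : ∀ t : ℝ, 0 < t → ∀ x : E 2, t • x ∈ B ↔ x ∈ B := by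
    intro t ht x
    have ht2 : 0 < t ^ 2 := by positivity
    have e1 : ∀ i, (t • x) i = t * x i := fun i => rfl
    rw [hB]; split_ifs
    · simp only [setA, mem_ofPred_eq, e1, abs_mul, abs_of_pos ht]
      constructor
      · rintro (h | h)
        · left; nlinarith
        · right
          have : t * (2 * |x 0| + 2 * |x 2|) < t * |x 1| := by linarith
          exact lt_of_mul_lt_mul_left this ht.le
      · rintro (h | h)
        · left; nlinarith
        · right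
          have : t * (2 * |x 0| + 2 * |x 2|) < t * |x 1| := mul_lt_mul_of_pos_left h ht
          linarith
    · simp only [setB, mem_ofPred_eq, e1, abs_mul, abs_of_pos ht]
      have key : (0 < t * x 0 * (t * x 2) ∧ 2 * (t * x 0 * (t * x 2)) < (t * x 2) ^ 2) ↔
          (0 < x 0 * x 2 ∧ 2 * (x 0 * x 2) < (x 2) ^ 2) := by
        have a1 : t * x 0 * (t * x 2) = t ^ 2 * (x 0 * x 2) := by ring
        have a2 : 2 * (t * x 0 * (t * x 2)) = t ^ 2 * (2 * (x 0 * x 2)) := by ring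
        have a3 : (t * x 2) ^ 2 = t ^ 2 * (x 2) ^ 2 := by ring
        rw [a2, a1, a3, mul_lt_mul_iff_right₀ ht2, mul_pos_iff_of_pos_left ht2]
      have key2 : (2 * (t * |x 0|) + 2 * (t * |x 2|) < t * |x 1|) ↔
          (2 * |x 0| + 2 * |x 2| < |x 1|) := by
        have a1 : 2 * (t * |x 0|) + 2 * (t * |x 2|) = t * (2 * |x 0| + 2 * |x 2|) := by ring
        rw [a1, mul_lt_mul_iff_right₀ ht]
      rw [key, key2]
  obtain ⟨C, hC, h10'⟩ := h10 n
  obtain ⟨K1, hK1⟩ := h19 q hq hq1 (η / 2) (by positivity)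
  -- choose K large
  have hlim : ∃ K2 : ℕ, ∀ K : ℕ, K2 ≤ K → 2 ≤ 2 * (4 : ℝ) ^ K * q ∧ C / (2 * (4 : ℝ) ^ K * q) ≤ η / 2 := by
    have ht : Filter.Tendsto (fun K : ℕ => 2 * (4 : ℝ) ^ K * q) Filter.atTop Filter.atTop := by
      have h4 : Filter.Tendsto (fun K : ℕ => (4 : ℝ) ^ K) Filter.atTop Filter.atTop :=
        tendsto_pow_atTop_atTop_of_one_lt (by norm_num)
      exact (h4.const_mul_atTop (by norm_num : (0 : ℝ) < 2)).atTop_mul_const hq
    have h1 := ht.eventually_ge_atTop (max 2 (C / (η / 2)))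
    obtain ⟨K2, hK2⟩ := Filter.eventually_atTop.mp h1
    refine ⟨K2, fun K hK => ?_⟩
    have h2 := hK2 K hK
    have h3 : 2 ≤ 2 * (4 : ℝ) ^ K * q := le_trans (le_max_left _ _) h2
    refine ⟨h3, ?_⟩
    have h4 : C / (η / 2) ≤ 2 * (4 : ℝ) ^ K * q := le_trans (le_max_right _ _) h2
    rw [div_le_iff₀ (by positivity)] at h4
    rw [div_le_iff₀ (by linarith)]
    linarith
  obtain ⟨K2, hK2⟩ := hlim
  refine ⟨max K1 K2, fun K hK => ?_⟩
  have hKa := hK1 K (le_trans (le_max_left _ _) hK)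
  obtain ⟨hd2, hCd⟩ := hK2 K (le_trans (le_max_right _ _) hK)
  set d : ℝ := 2 * (4 : ℝ) ^ K * q with hd
  set G : E 2 → ℝ≥0∞ := fun y => ENNReal.ofReal (SS K y ^ q) with hG
  have hGm : Measurable G := by
    refine ENNReal.measurable_ofReal.comp ?_
    exact ((continuous_SS K).rpow_const fun _ => Or.inr hq.le).measurable
  have hGh : ∀ t : ℝ, 0 < t → ∀ x, G (t • x) = ENNReal.ofReal (t ^ d) * G x := by
    intro t ht x
    simp only [hG]
    rw [SS_smul, Real.mul_rpow (by positivity) (SS_nonneg K x), ENNReal.ofReal_mul (by positivity)]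
    congr 2
    rw [← Real.rpow_natCast, ← Real.rpow_mul ht.le, hd]
    congr 1
    push_cast
    ring
  set GB : E 2 → ℝ≥0∞ := B.indicator G with hGB
  have hGBm : Measurable GB := hGm.indicator hBo.measurableSet
  have hGBh : ∀ t : ℝ, 0 < t → ∀ x, GB (t • x) = ENNReal.ofReal (t ^ d) * GB x := by
    intro t ht x
    simp only [hGB]
    by_cases hx : x ∈ B
    · rw [indicator_of_mem ((hBc t ht x).mpr hx), indicator_of_mem hx, hGh t ht x]
    · rw [indicator_of_notMem (fun h => hx ((hBc t ht x).mp h)), indicator_of_notMem hx, mul_zero]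
  obtain ⟨κ, hκ, h9'⟩ := h9 n d (by linarith)
  have e1 := h9' G hGm hGh
  have e2 := h9' GB hGBm hGBh
  have e3 := h10' d hd2 G hGm hGh
  have hcont : Continuous fun x : Sph (n + 2) => pi3 (x : E (n + 2)) :=
    continuous_pi3.comp continuous_subtype_val
  have hms : MeasurableSet {x : Sph (n + 2) | pi3 (x : E (n + 2)) ∈ B} :=
    (hBo.preimage hcont).measurableSet
  have e4 : ∫⁻ x in {x : Sph (n + 2) | pi3 (x : E (n + 2)) ∈ B}, G (pi3 (x : E (n + 2)))
      ∂(vol (n + 2)) = ∫⁻ x : Sph (n + 2), GB (pi3 (x : E (n + 2))) ∂(vol (n + 2)) := by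
    rw [← lintegral_indicator hms]
    rfl
  have hms2 : MeasurableSet {x : Sph 2 | (x : E 2) ∈ B} :=
    (hBo.preimage continuous_subtype_val).measurableSet
  have e5 : ∫⁻ x in {x : Sph 2 | (x : E 2) ∈ B}, G (x : E 2) ∂(vol 2)
      = ∫⁻ x : Sph 2, GB (x : E 2) ∂(vol 2) := by
    rw [← lintegral_indicator hms2]
    rfl
  have e6 : ∫⁻ x in AA n B, G (pi3 (x : E (n + 2))) ∂(vol (n + 2))
      ≤ ∫⁻ x in {x : Sph (n + 2) | pi3 (x : E (n + 2)) ∈ B}, G (pi3 (x : E (n + 2))) ∂(vol (n + 2))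
        + ∫⁻ x in {x : Sph (n + 2) | ‖pi3 (x : E (n + 2))‖ ^ 2 < 1 / 2},
          G (pi3 (x : E (n + 2))) ∂(vol (n + 2)) :=
    lintegral_union_le _ _ _
  set I : ℝ≥0∞ := ∫⁻ x : Sph (n + 2), G (pi3 (x : E (n + 2))) ∂(vol (n + 2)) with hI
  have hIfin : I ≠ ⊤ := by
    have hc : Continuous fun x : Sph (n + 2) => SS K (pi3 (x : E (n + 2))) ^ q :=
      ((continuous_SS K).comp hcont).rpow_const fun _ => Or.inr hq.le
    obtain ⟨M, hM⟩ := (isCompact_range hc).bddAbove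
    have : I ≤ ∫⁻ x : Sph (n + 2), ENNReal.ofReal M ∂(vol (n + 2)) :=
      lintegral_mono fun x => ENNReal.ofReal_le_ofReal (hM ⟨x, rfl⟩)
    refine ne_top_of_le_ne_top ?_ this
    rw [lintegral_const]
    exact ENNReal.mul_ne_top ENNReal.ofReal_ne_top (measure_ne_top _ _)
  have e7 : ∫⁻ x in {x : Sph (n + 2) | pi3 (x : E (n + 2)) ∈ B}, G (pi3 (x : E (n + 2)))
      ∂(vol (n + 2)) < ENNReal.ofReal (η / 2) * I := by
    rw [e4, e2, e1, ← e5, ← mul_assoc, mul_comm (ENNReal.ofReal (η / 2)), mul_assoc]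
    refine ENNReal.mul_lt_mul_right ?_ ENNReal.ofReal_ne_top hKa
    simpa using hκ
  have e8 : ∫⁻ x in {x : Sph (n + 2) | ‖pi3 (x : E (n + 2))‖ ^ 2 < 1 / 2},
      G (pi3 (x : E (n + 2))) ∂(vol (n + 2)) ≤ ENNReal.ofReal (η / 2) * I :=
    e3.trans (mul_le_mul_left (ENNReal.ofReal_le_ofReal hCd) I)
  calc ∫⁻ x in AA n B, G (pi3 (x : E (n + 2))) ∂(vol (n + 2))
      ≤ _ := e6
    _ < ENNReal.ofReal (η / 2) * I + ENNReal.ofReal (η / 2) * I := by
        refine ENNReal.add_lt_add_of_lt_of_le ?_ e7 e8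
        exact ne_top_of_le_ne_top (ENNReal.mul_ne_top ENNReal.ofReal_ne_top hIfin) e8
    _ = ENNReal.ofReal η * I := by
        rw [← add_mul, ← ENNReal.ofReal_add (by positivity) (by positivity), add_halves]

end Asm

end Pool.Agent.Q73.TG
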