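import Pool.Agent.Q73.TG.Asm

/-!
# Project TG: assembly, second part (random signs)
-/

namespace Pool.Agent.Q73.TG

open MeasureTheory Set
open scoped ENNReal ContDiff

namespace Asm

/-- the random sum of beams. -/
noncomputable def beam {m : ℕ} {ι : Type} [Fintype ι] (u v : ι → E m) (l : ℕ) (s : ι → Bool)
    (x : Sph m) : ℂ :=
  ∑ i, ((sg (s i) : ℝ) : ℂ) *
    (((inner ℝ (u i) (x : E m) : ℝ) : ℂ) + Complex.I * ((inner ℝ (v i) (x : E m) : ℝ) : ℂ)) ^ l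

lemma continuous_beam {m : ℕ} {ι : Type} [Fintype ι] (u v : ι → E m) (l : ℕ) (s : ι → Bool) :
    Continuous (beam u v l s) := by
  unfold beam; fun_prop

lemma nu_ne (K : ℕ) (b : Fin K → Bool) : nu K b ≠ 0 := by
  intro h
  have : (nu K b) 1 = 0 := by rw [h]; rfl
  simp [nu] at this

lemma norm_sq_lin (a b : ℝ) : ‖((a : ℂ) + Complex.I * (b : ℂ))‖ ^ 2 = a ^ 2 + b ^ 2 := by
  rw [← Complex.normSq_eq_norm_sq, Complex.normSq_apply]
  simp
  ring

lemma integrable_cont {m : ℕ} {f : Sph m → ℝ} (hf : Continuous f) : Integrable f (vol m) :=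
  hf.integrable_of_hasCompactSupport (HasCompactSupport.of_compactSpace f)

lemma fails (h4 : T4) (h5 : T5) (h6 : T6) (h9 : T9) (h10 : T10) (h19 : T19) (n : ℕ) (p : ℝ)
    (hp1 : 1 ≤ p) (hp4 : p ≤ 4) (hp2 : p ≠ 2) :
    Fails p (AA n (if 1 < p / 2 then setA else setB)) := by
  intro η hη Λ
  set B : Set (E 2) := if 1 < p / 2 then setA else setB with hB
  have hBo : IsOpen B := by
    rw [hB]; split_ifs
    · exact isOpen_setA
    · exact isOpen_setB
  have hq : 0 < p / 2 := by linarith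
  have hq1 : p / 2 ≠ 1 := fun h => hp2 (by linarith)
  obtain ⟨K1, hK1⟩ := ratio h9 h10 h19 n hq hq1 (η := η / 9) (by positivity)
  rw [← hB] at hK1
  obtain ⟨K2, hK2⟩ : ∃ K2 : ℕ, ∀ K : ℕ, K2 ≤ K → max 1 Λ ≤ (4 : ℝ) ^ K :=
    Filter.eventually_atTop.mp
      ((tendsto_pow_atTop_atTop_of_one_lt (by norm_num : (1 : ℝ) < 4)).eventually_ge_atTop _)
  set K := max K1 K2 with hK
  have hr := hK1 K (le_max_left _ _)
  have hL := hK2 K (le_max_right _ _)
  set l : ℕ := 4 ^ K with hl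
  have hl1 : 1 ≤ l := Nat.one_le_pow _ _ (by norm_num)
  have hlR : (l : ℝ) = (4 : ℝ) ^ K := by rw [hl]; push_cast; ring
  choose u v hu hv huv hx using fun b : Fin K → Bool => h5 n (nu K b) (nu_ne K b)
  have heig : ∀ s : (Fin K → Bool) → Bool,
      IsEigenfunction (Real.sqrt ((l : ℝ) * (l + ((n + 2 : ℕ) : ℝ) - 1))) (beam u v l s) :=
    fun s => h4 (n + 2) (Fin K → Bool) u v (fun i => ((sg (s i) : ℝ) : ℂ)) l hl1 (by omega)
      hu hv huv
  -- the square function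
  have hsq : ∀ x : Sph (n + 2), ∑ b, ‖(((inner ℝ (u b) (x : E (n + 2)) : ℝ) : ℂ)
      + Complex.I * ((inner ℝ (v b) (x : E (n + 2)) : ℝ) : ℂ)) ^ l‖ ^ 2
      = SS K (pi3 (x : E (n + 2))) := by
    intro x
    unfold SS
    refine Finset.sum_congr rfl fun b _ => ?_
    rw [norm_pow, ← pow_mul, mul_comm l 2, pow_mul, norm_sq_lin, hx b]
  have hkh : ∀ x : Sph (n + 2),
      (1 / 3) * (SS K (pi3 (x : E (n + 2)))) ^ (p / 2)
        ≤ (1 / 2 : ℝ) ^ (Fintype.card (Fin K → Bool)) *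
          ∑ s : (Fin K → Bool) → Bool, ‖beam u v l s x‖ ^ p ∧
      (1 / 2 : ℝ) ^ (Fintype.card (Fin K → Bool)) *
          ∑ s : (Fin K → Bool) → Bool, ‖beam u v l s x‖ ^ p
        ≤ 3 * (SS K (pi3 (x : E (n + 2)))) ^ (p / 2) := by
    intro x
    have := h6 (Fin K → Bool) (fun b => (((inner ℝ (u b) (x : E (n + 2)) : ℝ) : ℂ)
      + Complex.I * ((inner ℝ (v b) (x : E (n + 2)) : ℝ) : ℂ)) ^ l) p hp1 hp4
    rw [hsq x] at this
    exact this
  set c : ℝ := (1 / 2 : ℝ) ^ (Fintype.card (Fin K → Bool)) with hc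
  have hc0 : 0 < c := by rw [hc]; positivity
  have hcontS : Continuous fun x : Sph (n + 2) => (SS K (pi3 (x : E (n + 2)))) ^ (p / 2) :=
    ((continuous_SS K).comp (continuous_pi3.comp continuous_subtype_val)).rpow_const
      fun _ => Or.inr hq.le
  have hcontb : ∀ s, Continuous fun x : Sph (n + 2) => ‖beam u v l s x‖ ^ p := fun s =>
    ((continuous_beam u v l s).norm).rpow_const fun _ => Or.inr (by linarith)
  have hintS := integrable_cont hcontS
  have hintb := fun s => integrable_cont (hcontb s)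
  have hmA : MeasurableSet (AA n B) := (isOpen_AA hBo).measurableSet
  -- real version of the ratio
  set IA := ∫ x in AA n B, (SS K (pi3 (x : E (n + 2)))) ^ (p / 2) ∂(vol (n + 2)) with hIA
  set IS := ∫ x : Sph (n + 2), (SS K (pi3 (x : E (n + 2)))) ^ (p / 2) ∂(vol (n + 2)) with hIS
  have hnn : ∀ x : Sph (n + 2), 0 ≤ (SS K (pi3 (x : E (n + 2)))) ^ (p / 2) := fun x =>
    Real.rpow_nonneg (SS_nonneg _ _) _
  have hreal : IA < η / 9 * IS := by
    have e1 : ENNReal.ofReal IA = ∫⁻ x in AA n B,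
        ENNReal.ofReal (SS K (pi3 (x : E (n + 2))) ^ (p / 2)) ∂(vol (n + 2)) :=
      ofReal_integral_eq_lintegral_ofReal hintS.integrableOn (Filter.Eventually.of_forall hnn)
    have e2 : ENNReal.ofReal IS = ∫⁻ x : Sph (n + 2),
        ENNReal.ofReal (SS K (pi3 (x : E (n + 2))) ^ (p / 2)) ∂(vol (n + 2)) :=
      ofReal_integral_eq_lintegral_ofReal hintS (Filter.Eventually.of_forall hnn)
    rw [← e1, ← e2, ← ENNReal.ofReal_mul (by positivity)] at hr
    exact (ENNReal.ofReal_lt_ofReal_iff_of_nonneg (integral_nonneg hnn)).mp hr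
  -- sums over signs
  have hsumA : c * ∑ s : (Fin K → Bool) → Bool, ∫ x in AA n B, ‖beam u v l s x‖ ^ p ∂(vol (n + 2))
      ≤ 3 * IA := by
    rw [← integral_finsetSum _ (fun s _ => (hintb s).integrableOn), ← integral_const_mul, hIA,
      ← integral_const_mul]
    refine integral_mono ?_ ?_ fun x => (hkh x).2
    · exact ((integrable_finsetSum _ fun s _ => hintb s).const_mul c).integrableOn
    · exact (hintS.const_mul 3).integrableOn
  have hsumS : (1 / 3) * IS ≤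
      c * ∑ s : (Fin K → Bool) → Bool, ∫ x, ‖beam u v l s x‖ ^ p ∂(vol (n + 2)) := by
    rw [hIS, ← integral_finsetSum _ (fun s _ => hintb s), ← integral_const_mul,
      ← integral_const_mul]
    refine integral_mono ?_ ?_ fun x => (hkh x).1
    · exact hintS.const_mul _
    · exact (integrable_finsetSum _ fun s _ => hintb s).const_mul c
  have hlt : ∑ s : (Fin K → Bool) → Bool, ∫ x in AA n B, ‖beam u v l s x‖ ^ p ∂(vol (n + 2))
      < ∑ s : (Fin K → Bool) → Bool, η * ∫ x, ‖beam u v l s x‖ ^ p ∂(vol (n + 2)) := by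
    rw [← Finset.mul_sum]
    have h1 : 3 * IA < η * ((1 / 3) * IS) := by linarith
    have h2 : η * ((1 / 3) * IS) ≤ η * (c * ∑ s : (Fin K → Bool) → Bool,
        ∫ x, ‖beam u v l s x‖ ^ p ∂(vol (n + 2))) := by gcongr
    have h3 := lt_of_le_of_lt hsumA (lt_of_lt_of_le h1 h2)
    refine lt_of_mul_lt_mul_left (a := c) ?_ hc0.le
    linarith
  obtain ⟨s, -, hs⟩ := Finset.exists_lt_of_sum_lt hlt
  have hlam : (l : ℝ) ≤ Real.sqrt ((l : ℝ) * (l + ((n + 2 : ℕ) : ℝ) - 1)) := by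
    refine Real.le_sqrt_of_sq_le ?_
    have h0 : (0 : ℝ) ≤ l := Nat.cast_nonneg l
    have h1 : (0 : ℝ) ≤ (n : ℝ) := Nat.cast_nonneg n
    push_cast
    nlinarith [mul_nonneg h0 h1]
  have h1l : (1 : ℝ) ≤ l := by exact_mod_cast hl1
  refine ⟨Real.sqrt ((l : ℝ) * (l + ((n + 2 : ℕ) : ℝ) - 1)), h1l.trans hlam, ?_,
    beam u v l s, heig s, ?_, hs⟩
  · have : Λ ≤ (l : ℝ) := by rw [hlR]; exact (le_max_right _ _).trans hL
    exact this.trans hlam
  · have h0 : 0 ≤ ∫ x in AA n B, ‖beam u v l s x‖ ^ p ∂(vol (n + 2)) :=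
      integral_nonneg fun x => Real.rpow_nonneg (norm_nonneg _) _
    have h1 : 0 < η * ∫ x, ‖beam u v l s x‖ ^ p ∂(vol (n + 2)) := lt_of_le_of_lt h0 hs
    exact (mul_pos_iff_of_pos_left hη).mp h1

lemma not_LS {m : ℕ} {p : ℝ} {A : Set (Sph m)} (h : Fails p A) : ¬ LS p (fun _ : ℝ => A) := by
  rintro ⟨C, hC, hLS⟩
  obtain ⟨lam, hlam, -, e, he, hpos, hlt⟩ := h C hC 0
  exact absurd (hLS lam hlam e he) (not_le.mpr hlt)

end Asm

/-- The main theorem of the project. -/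
def Main : Prop :=
  (∀ m : ℕ, 2 ≤ m →
    (∃ A : Set (Sph m), IsOpen A ∧ TGCC (fun _ : ℝ => A) ∧
      ∀ p : ℝ, 2 < p → p ≤ 4 → Fails p A ∧ ¬ LS p (fun _ : ℝ => A)) ∧
    (∃ A : Set (Sph m), IsOpen A ∧ TGCC (fun _ : ℝ => A) ∧
      ∀ p : ℝ, 1 ≤ p → p < 2 → Fails p A ∧ ¬ LS p (fun _ : ℝ => A))) ∧
  ¬ Q1

theorem main_of (h3 : T3) (h4 : T4) (h5 : T5) (h6 : T6) (h9 : T9) (h10 : T10) (h11 : T11)
    (h19 : T19) : Main := by
  have key : ∀ m : ℕ, 2 ≤ m →
    (∃ A : Set (Sph m), IsOpen A ∧ TGCC (fun _ : ℝ => A) ∧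
      ∀ p : ℝ, 2 < p → p ≤ 4 → Fails p A ∧ ¬ LS p (fun _ : ℝ => A)) ∧
    (∃ A : Set (Sph m), IsOpen A ∧ TGCC (fun _ : ℝ => A) ∧
      ∀ p : ℝ, 1 ≤ p → p < 2 → Fails p A ∧ ¬ LS p (fun _ : ℝ => A)) := by
    intro m hm
    obtain ⟨n, rfl⟩ : ∃ n, m = n + 2 := ⟨m - 2, by omega⟩
    refine ⟨⟨Asm.AA n setA, Asm.isOpen_AA Asm.isOpen_setA,
      Asm.tgcc_AA h3 Asm.isOpen_setA (fun W hW => (h11 n W hW).1), ?_⟩,
      ⟨Asm.AA n setB, Asm.isOpen_AA Asm.isOpen_setB,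
      Asm.tgcc_AA h3 Asm.isOpen_setB (fun W hW => (h11 n W hW).2), ?_⟩⟩
    · intro p hp hp4
      have h := Asm.fails h4 h5 h6 h9 h10 h19 n p (by linarith) hp4 (by linarith)
      rw [if_pos (by linarith)] at h
      exact ⟨h, Asm.not_LS h⟩
    · intro p hp hp2
      have h := Asm.fails h4 h5 h6 h9 h10 h19 n p hp (by linarith) (by linarith)
      rw [if_neg (by linarith)] at h
      exact ⟨h, Asm.not_LS h⟩
  refine ⟨key, fun hQ => ?_⟩
  obtain ⟨⟨A, hA, hT, hF⟩, -⟩ := key 2 le_rfl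
  refine (hF 3 (by norm_num) (by norm_num)).2 ?_
  exact hQ 2 le_rfl 3 (by norm_num) (by norm_num) (fun _ => A) (fun _ _ => hA.measurableSet) hT

end Pool.Agent.Q73.TG
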