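import Mathlib

/-!
# Project TG (helper73): tubular control does not imply L^p Logvinenko-Sereda on spheres
(problem MP_af75b4_an).  Definitions.
-/

namespace Pool.Agent.Q73.TG

open MeasureTheory Set
open scoped ENNReal ContDiff

/-- Euclidean space of dimension `m+1`. -/
abbrev E (m : ℕ) := EuclideanSpace ℝ (Fin (m + 1))

/-- The unit sphere `S^m`. -/
abbrev Sph (m : ℕ) := Metric.sphere (0 : E m) 1

/-- Riemannian volume of `S^m`. -/
noncomputable def vol (m : ℕ) : Measure (Sph m) := (volume : Measure (E m)).toSphere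

/-- geodesic distance on `S^m`. -/
noncomputable def gdist {m : ℕ} (x y : Sph m) : ℝ := Real.arccos (inner ℝ (x : E m) (y : E m))

/-- great circles = closed geodesics. -/
def IsGreatCircle {m : ℕ} (γ : Set (Sph m)) : Prop :=
  ∃ W : Submodule ℝ (E m), Module.finrank ℝ W = 2 ∧ γ = {x : Sph m | (x : E m) ∈ W}

/-- the open tube of radius `R` about `γ`. -/
def tube {m : ℕ} (R : ℝ) (γ : Set (Sph m)) : Set (Sph m) := {x | ∃ y ∈ γ, gdist x y < R}

/-- radial projection to the sphere. -/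
noncomputable def proj {m : ℕ} (y : E m) (hy : y ≠ 0) : Sph m :=
  ⟨‖y‖⁻¹ • y, by
    rw [mem_sphere_zero_iff_norm, norm_smul, norm_inv, norm_norm]
    exact inv_mul_cancel₀ (norm_ne_zero_iff.mpr hy)⟩

open Classical in
/-- the extension of `e : S^m → ℂ` to `ℝ^{m+1} \ {0}` which is constant on rays
(value `0` at the origin). -/
noncomputable def ext {m : ℕ} (e : Sph m → ℂ) (y : E m) : ℂ :=
  if h : y = 0 then 0 else e (proj y h)

/-- Laplace-Beltrami operator of `S^m`: the Euclidean Laplacian of the extension. -/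
noncomputable def lap {m : ℕ} (e : Sph m → ℂ) (x : Sph m) : ℂ :=
  Laplacian.laplacian (ext e) (x : E m)

/-- `e` is a smooth function with `-Δ e = lam ^ 2 e` on `S^m`. -/
structure IsEigenfunction {m : ℕ} (lam : ℝ) (e : Sph m → ℂ) : Prop where
  smooth : ContDiffOn ℝ ∞ (ext e) {0}ᶜ
  eq : ∀ x, - lap e x = (lam : ℂ) ^ 2 * e x

/-- tubular geometric control condition. -/
def TGCC {m : ℕ} (A : ℝ → Set (Sph m)) : Prop :=
  ∃ c > (0 : ℝ), ∃ ρ > (0 : ℝ), ∀ γ : Set (Sph m), IsGreatCircle γ → ∀ lam : ℝ, 1 ≤ lam →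
    ρ * (vol m).real (tube (c * lam ^ (-(1 / 2) : ℝ)) γ)
      ≤ (vol m).real (A lam ∩ tube (c * lam ^ (-(1 / 2) : ℝ)) γ)

/-- `L^p`-Logvinenko-Sereda for eigenfunctions. -/
def LS {m : ℕ} (p : ℝ) (A : ℝ → Set (Sph m)) : Prop :=
  ∃ C > (0 : ℝ), ∀ lam : ℝ, 1 ≤ lam → ∀ e : Sph m → ℂ, IsEigenfunction lam e →
    C * ∫ x, ‖e x‖ ^ p ∂(vol m) ≤ ∫ x in A lam, ‖e x‖ ^ p ∂(vol m)

/-- The question Q1 of the problem. -/
def Q1 : Prop := ∀ m : ℕ, 2 ≤ m → ∀ p : ℝ, 1 ≤ p → p < 2 * m / (m - 1) →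
  ∀ A : ℝ → Set (Sph m), (∀ lam, 1 ≤ lam → MeasurableSet (A lam)) → TGCC A → LS p A

/-! ### Internal definitions -/

/-- the first three coordinates. -/
noncomputable def pi3 {n : ℕ} (x : E (n + 2)) : E 2 :=
  WithLp.toLp 2 (fun i : Fin 3 => x (Fin.castLE (by omega) i))

/-- The set `A` for `p > 2`. -/
def setA : Set (E 2) := {x | 2 * (x 2) ^ 2 < x 0 * x 2 ∨ 2 * |x 0| + 2 * |x 2| < |x 1|}

/-- The set `A` for `p < 2`. -/
def setB : Set (E 2) :=
  {x | (0 < x 0 * x 2 ∧ 2 * (x 0 * x 2) < (x 2) ^ 2) ∨ 2 * |x 0| + 2 * |x 2| < |x 1|}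

/-- the point of the chart `x 2 ≠ 0` of the projective plane. -/
noncomputable def pt (X Y : ℝ) : E 2 := WithLp.toLp 2 ![X, Y, 1]

/-- nodes `x_k = (k+1)/K`. -/
noncomputable def xk (K : ℕ) (k : Fin K) : ℝ := ((k : ℕ) + 1 : ℝ) / K

/-- slopes. -/
noncomputable def aa (K : ℕ) (b : Fin K → Bool) : ℝ :=
  ∑ k : Fin K, if b k then (1 / 2 : ℝ) ^ ((k : ℕ) + 1) else 0

/-- intercepts. -/
noncomputable def bb (K : ℕ) (b : Fin K → Bool) : ℝ :=
  - ∑ k : Fin K, if b k then xk K k * (1 / 2 : ℝ) ^ ((k : ℕ) + 1) else 0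

/-- the line `Y = aX + b` of the beam `b` in the chart. -/
noncomputable def yy (K : ℕ) (b : Fin K → Bool) (X : ℝ) : ℝ := aa K b * X + bb K b

/-- normal of the great circle of the beam `b`. -/
noncomputable def nu (K : ℕ) (b : Fin K → Bool) : E 2 := WithLp.toLp 2 ![aa K b, -1, bb K b]

/-- `Σ |h_b|²`, homogeneous of degree `2 * 4 ^ K`. -/
noncomputable def SS (K : ℕ) (x : E 2) : ℝ :=
  ∑ b : Fin K → Bool, (‖x‖ ^ 2 - (inner ℝ (nu K b) x) ^ 2 / ‖nu K b‖ ^ 2) ^ (4 ^ K)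

/-- one beam in the chart. -/
noncomputable def term (K : ℕ) (b : Fin K → Bool) (X Y : ℝ) : ℝ :=
  (1 - (yy K b X - Y) ^ 2 / ((1 + (aa K b) ^ 2 + (bb K b) ^ 2) * (1 + X ^ 2 + Y ^ 2))) ^ (4 ^ K)

/-- the sum in the chart. -/
noncomputable def FF (K : ℕ) (X Y : ℝ) : ℝ := ∑ b : Fin K → Bool, term K b X Y

/-- the surface measure of the sphere in the chart (of one hemisphere). -/
noncomputable def muC : Measure (ℝ × ℝ) :=
  volume.withDensity (fun z => ENNReal.ofReal ((1 + z.1 ^ 2 + z.2 ^ 2) ^ (-(3 / 2) : ℝ)))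

/-- Rademacher sign. -/
def sg (t : Bool) : ℝ := if t then 1 else -1

end Pool.Agent.Q73.TG
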