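import Pool.Agent.Q73.TG.Defs

/-!
# Project TG (helper73): lemma statements, with paper proofs in the docstrings.

Picture: `K` large, `N = 2^K` Gaussian beams (highest weight spherical harmonics of degree
`ℓ = 4^K`, of width `2^{-K}`) along great circles which in the chart `X = x0/x2, Y = x1/x2` are
the lines `Y = yy K b X = Σ_k (X - x_k) b_k 2^{-(k+1)}`.  They are separated for `X ≥ 2`, and
compressed (Besicovitch/Kakeya) for `0 < X < 1/2`.  `FF K X Y` is the square function.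
-/

namespace Pool.Agent.Q73.TG

open MeasureTheory Set
open scoped ENNReal ContDiff

/-- **T1** (invariance of the volume under linear isometries).  Proof: `toSphere_apply'` (or the
definition `toSphere`), `Ioo 0 1 • ((↑) '' (preimage of s)) = R⁻¹ (Ioo 0 1 • ((↑) '' s))` and
`LinearIsometryEquiv.measurePreserving`. -/
def T1 : Prop := ∀ (m : ℕ) (R : E m ≃ₗᵢ[ℝ] E m) (s : Set (Sph m)), MeasurableSet s →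
  vol m {x : Sph m | ∃ y ∈ s, (y : E m) = R (x : E m)} = vol m s

/-- **T2** (compactness).  If an open set `A` of the sphere meets every great circle then there is
`δ > 0` such that every great circle contains a point `x0` with `{x | dist x x0 < δ} ⊆ A`.
Proof: otherwise there are great circles `γ_j` (spanned by orthonormal pairs `u_j, v_j`) failing
for `δ = 1/(j+1)`; by compactness of the set of orthonormal pairs pass to `u_j → u`, `v_j → v`;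
the great circle of `u, v` contains a point `cos t u + sin t v ∈ A`, `B(x,2δ0) ∩ S ⊆ A`; then
`cos t u_j + sin t v_j` (a unit vector of `W_j`) converges to it, and
`B(cos t u_j + sin t v_j, δ0) ⊆ B(x,2δ0)` for large `j`, contradiction. -/
def T2 : Prop := ∀ (m : ℕ) (A : Set (Sph m)), IsOpen A →
  (∀ γ, IsGreatCircle γ → (γ ∩ A).Nonempty) →
  ∃ δ > (0 : ℝ), ∀ γ, IsGreatCircle γ → ∃ x0 ∈ γ, ∀ x : Sph m, dist x x0 < δ → x ∈ A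

/-- **T3** (open sets meeting all great circles satisfy TGCC).  Proof: `δ` from T2; put
`c = δ/4` (so `c * lam^(-1/2) ≤ c`), and `r ≤ c` the radius.  Let `γ = S ∩ W`, `x0` from T2, and
`R_θ` the rotation by `θ` in `W` (identity on `Wᗮ`; it is a linear isometry).  It maps `γ` to `γ`
and preserves `gdist`, hence the tube.  Choose `M` (depending on `δ` only) with `2π/M ≤ δ/4`.
For `x` in the tube there is `y ∈ γ` with `gdist x y < r`, so `dist x y ≤ gdist x y < r`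
(chord ≤ arc), and for some `j < M` the point `R_{2πj/M} y` has distance `≤ δ/4` from `x0`; so
`dist (R x) x0 < r + δ/4 < δ` and `R x ∈ A ∩ tube`.  So the tube is covered by `M` preimages
of `A ∩ tube`; by T1 `vol tube ≤ M vol (A ∩ tube)`, `ρ = 1/M`.  (The volume is finite; the tube is
open, because `gdist` is continuous.) -/
def T3 : Prop := ∀ (m : ℕ) (A : Set (Sph m)), IsOpen A →
  (∀ γ, IsGreatCircle γ → (γ ∩ A).Nonempty) → TGCC (fun _ : ℝ => A)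

/-- **T4** (sums of Gaussian beams are eigenfunctions).  `ext` of the function is
`‖x‖^{-ℓ} P(x)`, `P(x) = Σ c_i (⟨u_i,x⟩ + i⟨v_i,x⟩)^ℓ`, on `{0}ᶜ`, which is smooth.  `P` is
homogeneous of degree `ℓ` and harmonic: with `L = ⟨u,·⟩ + i⟨v,·⟩` linear,
`Δ L^ℓ = ℓ(ℓ-1) L^{ℓ-2} Σ_j (L e_j)²`, `Σ_j (L e_j)² = |u|² - |v|² + 2i⟨u,v⟩ = 0`.  And
`Δ(r^{-ℓ} P) = P Δ r^{-ℓ} + 2 ∇r^{-ℓ}·∇P + r^{-ℓ} ΔP
 = P ℓ(ℓ+2-n) r^{-ℓ-2} - 2ℓ r^{-ℓ-2} x·∇P = -ℓ(ℓ+n-2) r^{-ℓ-2} P` with `n = m+1` (Euler: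
`x·∇P = ℓ P`). -/
def T4 : Prop := ∀ (m : ℕ) (ι : Type) [Fintype ι] (u v : ι → E m) (c : ι → ℂ) (l : ℕ), 1 ≤ l →
  1 ≤ m → (∀ i, ‖u i‖ = 1) → (∀ i, ‖v i‖ = 1) → (∀ i, inner ℝ (u i) (v i) = 0) →
  IsEigenfunction (Real.sqrt ((l : ℝ) * (l + m - 1)))
    (fun x : Sph m => ∑ i, c i *
      (((inner ℝ (u i) (x : E m) : ℝ) : ℂ) + Complex.I * ((inner ℝ (v i) (x : E m) : ℝ) : ℂ)) ^ l)

/-- **T5** (the beam of a normal vector).  Proof: extend `ν` by zeros to `ν' : E (n+2)`; choose an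
orthonormal basis `u, v` of the plane `νᗮ` in the three dimensional space of the first three
coordinates (e.g. an orthonormal basis `ν/|ν|, u0, v0` of `E 2`, extended by zeros; or explicitly for
`ν = (a,c,b)` ...); Parseval in `E 2`: `‖pi3 x‖² = ⟨ν,pi3 x⟩²/|ν|² + ⟨u0,pi3 x⟩² + ⟨v0,pi3 x⟩²`. -/
def T5 : Prop := ∀ (n : ℕ) (ν : E 2), ν ≠ 0 → ∃ u v : E (n + 2), ‖u‖ = 1 ∧ ‖v‖ = 1 ∧
  inner ℝ u v = 0 ∧ ∀ x : E (n + 2),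
    (inner ℝ u x) ^ 2 + (inner ℝ v x) ^ 2 = ‖pi3 x‖ ^ 2 - (inner ℝ ν (pi3 x)) ^ 2 / ‖ν‖ ^ 2

/-- **T6** (Khintchine with explicit constants, `1 ≤ p ≤ 4`).  `avg` = mean over all signs.
Proof: `E|f|² = Σ|a_i|² =: s` and `E|f|⁴ ≤ 3 s²` (expand).  Upper bound:
`E|f|^p ≤ (E|f|⁴)^{p/4} ≤ 3^{p/4} s^{p/2}`.  Lower bound, `p ≥ 2`: `E|f|^p ≥ (E|f|²)^{p/2}`;
`1 ≤ p < 2`: Hoelder `E|f|² ≤ (E|f|^p)^{2/(4-p)} (E|f|⁴)^{(2-p)/(4-p)}`, so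
`E|f|^p ≥ s^{p/2} 3^{-(2-p)/2} ≥ s^{p/2}/3`. -/
def T6 : Prop := ∀ (ι : Type) [Fintype ι] [DecidableEq ι] (a : ι → ℂ) (p : ℝ), 1 ≤ p → p ≤ 4 →
  (1 / 3) * (∑ i, ‖a i‖ ^ 2) ^ (p / 2)
      ≤ (1 / 2 : ℝ) ^ (Fintype.card ι) * ∑ s : ι → Bool, ‖∑ i, ((sg (s i) : ℝ) : ℂ) * a i‖ ^ p ∧
    (1 / 2 : ℝ) ^ (Fintype.card ι) * ∑ s : ι → Bool, ‖∑ i, ((sg (s i) : ℝ) : ℂ) * a i‖ ^ p
      ≤ 3 * (∑ i, ‖a i‖ ^ 2) ^ (p / 2)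

/-- **T7** (polar coordinates with Gaussian weight).  `∫ G e^{-|x|²} dx = ∫_S G dσ ·
∫_0^∞ r^{m+d} e^{-r²} dr`, and the last integral is `Γ((m+1+d)/2)/2`.  Mathlib:
`Measure.measurePreserving_homeomorphUnitSphereProd`, `volumeIoiPow`,
`Real.Gamma` integrals (`integral_rpow_mul_exp_neg_rpow` ...). -/
def T7 : Prop := ∀ (m : ℕ) (d : ℝ), 0 ≤ d → ∀ G : E m → ℝ≥0∞, Measurable G →
  (∀ t : ℝ, 0 < t → ∀ x, G (t • x) = ENNReal.ofReal (t ^ d) * G x) →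
  ∫⁻ x : E m, G x * ENNReal.ofReal (Real.exp (-‖x‖ ^ 2))
    = (∫⁻ x : Sph m, G (x : E m) ∂(vol m)) * ENNReal.ofReal (Real.Gamma (((m : ℝ) + 1 + d) / 2) / 2)

/-- **T8** (chart).  From T7 with `m = 2, d = 0`:
`∫_{S²} F dσ · Γ(3/2)/2 = ∫_{ℝ³} F e^{-|x|²}`, and (Fubini, `F` even, null set `x 2 = 0`)
`= 2 ∫_{t>0} ∫∫ F(a,b,t) e^{-(a²+b²+t²)} da db dt = 2 ∫_{t>0} t² ∫∫ F(X,Y,1) e^{-t²(1+X²+Y²)}
 = 2 ∫∫ F(X,Y,1) (1+X²+Y²)^{-3/2} · Γ(3/2)/2`. -/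
def T8 : Prop := ∀ F : E 2 → ℝ≥0∞, Measurable F →
  (∀ t : ℝ, t ≠ 0 → ∀ x, F (t • x) = F x) →
  ∫⁻ x : Sph 2, F (x : E 2) ∂(vol 2) = 2 * ∫⁻ z : ℝ × ℝ, F (pt z.1 z.2) ∂muC

/-- **T9** (from `S²` to `S^{n+2}`).  From T7 in dimensions `n+2` and `2`: write
`x = (y,z)`, `y = pi3 x`, `z ∈ ℝ^n`; `∫ G(y) e^{-|y|²-|z|²} dy dz = π^{n/2} ∫ G(y) e^{-|y|²} dy`. -/
def T9 : Prop := ∀ (n : ℕ) (d : ℝ), 0 ≤ d → ∃ κ : ℝ, 0 < κ ∧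
  ∀ G : E 2 → ℝ≥0∞, Measurable G →
  (∀ t : ℝ, 0 < t → ∀ x, G (t • x) = ENNReal.ofReal (t ^ d) * G x) →
  ∫⁻ x : Sph (n + 2), G (pi3 (x : E (n + 2))) ∂(vol (n + 2))
    = ENNReal.ofReal κ * ∫⁻ x : Sph 2, G (x : E 2) ∂(vol 2)

/-- **T10** (the part of `S^{n+2}` far from `S²` does not matter).  For `|x| = 1` the condition
`‖pi3 x‖² < 1/2` means `|y|² < |z|²` in the notation of T9, a condition invariant under scaling.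
By T7 (with `G(pi3 x) 1_{|y|<|z|}`, homogeneous of degree `d`),
`∫_{S, |y|<|z|} G · Γ((n+3+d)/2)/2 = ∫∫_{|y|<|z|} G(y) e^{-|y|²-|z|²}
 ≤ ∫∫ (|z|²/|y|²) G(y) e^{-|y|²-|z|²} = (n/2) π^{n/2} ∫ G(y)|y|^{-2} e^{-|y|²} dy`
and by polar coordinates in `E 2` (T7's method with degree `d-2 > -3`)
`∫ G(y)|y|^{-2} e^{-|y|²} dy = ∫_{S²} G · Γ((d+1)/2)/2
 = (2/(d+1)) ∫_{S²} G · Γ((d+3)/2)/2 = (2/(d+1)) ∫ G(y) e^{-|y|²} dy`;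
so the left side is at most `(n/(d+1)) ∫_S G · Γ((n+3+d)/2)/2`.  (For `d ≥ 2` one can apply T7 itself to
`G(y)|y|^{-2}`.) -/
def T10 : Prop := ∀ (n : ℕ), ∃ C : ℝ, 0 < C ∧ ∀ (d : ℝ), 2 ≤ d →
  ∀ G : E 2 → ℝ≥0∞, Measurable G →
  (∀ t : ℝ, 0 < t → ∀ x, G (t • x) = ENNReal.ofReal (t ^ d) * G x) →
  ∫⁻ x in {x : Sph (n + 2) | ‖pi3 (x : E (n + 2))‖ ^ 2 < 1 / 2},
      G (pi3 (x : E (n + 2))) ∂(vol (n + 2))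
    ≤ ENNReal.ofReal (C / d) * ∫⁻ x : Sph (n + 2), G (pi3 (x : E (n + 2))) ∂(vol (n + 2))

/-- **T11** (the sets meet every great circle).  Let `W` be two dimensional.  If some `x ∈ W`,
`x ≠ 0`, has `pi3 x = 0`, normalise it: `‖pi3 x‖² = 0 < 1/2`.  Otherwise `pi3 W` is a plane
`{y | α y0 + β y1 + γ y2 = 0}` of `E 2`; if `β ≠ 0` it contains `(3, s, 1) ∈ setA` and
`(1/4, s', 1) ∈ setB`, if `β = 0` it contains `(0,1,0) ∈ setA ∩ setB`.  Take the preimage `x ∈ W` and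
normalise (`setA`, `setB` are cones). -/
def T11 : Prop := ∀ (n : ℕ) (W : Submodule ℝ (E (n + 2))), Module.finrank ℝ W = 2 →
  (∃ x ∈ W, ‖x‖ = 1 ∧ (pi3 x ∈ setA ∨ ‖pi3 x‖ ^ 2 < 1 / 2)) ∧
  (∃ x ∈ W, ‖x‖ = 1 ∧ (pi3 x ∈ setB ∨ ‖pi3 x‖ ^ 2 < 1 / 2))

/-! ### The Kakeya part, in the chart.  `L = 4^K`.
Basic facts: `0 ≤ aa < 1`, `-1 ≤ bb ≤ 0`, `1 ≤ |ν|² = 1+aa²+bb² ≤ 3`,
`yy K b X = Σ_k (X - x_k) b_k 2^{-(k+1)}`, `0 ≤ term ≤ 1` (because `ν = (a,-1,b)` and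
`yy - Y = ⟨ν,(X,Y,1)⟩`, Cauchy-Schwarz), `1-t ≤ e^{-t}` gives
`term ≤ exp(-4^K (yy-Y)²/(3(1+X²+Y²)))`. -/

/-- **T12** (separated region).
(1) `X > 2`, `|Y| ≤ 2X`.  Order the `b` by `j(b) = 2^K aa(b) ∈ {0,...,2^K-1}` (injective).  If
`j(b') > j(b)` then `yy b' X - yy b X ≥ (X-1) 2^{-K} (j(b')-j(b))`: with `d_k = b'_k - b_k` and
`D_k = Σ_{j≤k} d_j 2^{-(j+1)} ≥ 0` (the first non-zero `d` is `+1`), Abel summation with the decreasing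
positive weights `X - x_k` gives `≥ (X - x_{K-1}) D_{K-1}`, `x_{K-1} = 1`.  Let `b0` minimise
`|yy b X - Y|`; then `|yy b X - Y| ≥ (1/2)|yy b X - yy b0 X| ≥ (1/2)(X-1)2^{-K}|j(b)-j(b0)|`, and
`3(1+X²+Y²) ≤ 18 X²`, `(X-1)² ≥ X²/4`, so `term b ≤ exp(-(j-j0)²/288)`, and the sum is bounded.
(2) `X > 2`, `|Y| > 2X`: `|yy| ≤ X`, so `|yy-Y| ≥ |Y|/2`, `1+X²+Y² ≤ (21/16)Y²`,
`term ≤ (1-4/63)^{4^K}` and `2^K (59/63)^{4^K}` is bounded.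
(3) `|Y| > 2|X|+2`: `|yy - Y| ≥ |Y|/2` (as `|yy| ≤ |X|+1`), `1+X²+Y² ≤ (5/4) Y²`,
`term ≤ (1-1/15)^{4^K}`. -/
def T12 : Prop := ∃ C : ℝ, 0 < C ∧ ∀ K : ℕ, 1 ≤ K → ∀ X Y : ℝ,
  (2 < X ∨ 2 * |X| + 2 < |Y|) → FF K X Y ≤ C

/-- **T13** (exponential decay in the region `|Y| > 2|X|+2`): see T12 (3), `2^K (14/15)^{4^K} → 0`. -/
def T13 : Prop := ∀ η > (0 : ℝ), ∃ K0 : ℕ, ∀ K : ℕ, K0 ≤ K → ∀ X Y : ℝ,
  2 * |X| + 2 < |Y| → FF K X Y ≤ η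

/-- the set where the beams are compressed. -/
def GG (K : ℕ) (R : ℝ) : Set (ℝ × ℝ) :=
  {z | 0 < z.1 ∧ z.1 < 1 / 2 ∧ ∃ b : Fin K → Bool, |yy K b z.1 - z.2| ≤ R * (1 / 2) ^ K}

/-- **T14** (Kakeya compression).  Fix `X ∈ (0,1/2)`, `k0 = ⌊XK⌋ ≤ K/2`.  For fixed digits
`b_k, k < k0` (that is `2^{k0}` choices) the number `yy b X = Σ_k (X-x_k) b_k 2^{-(k+1)}` lies in an
interval of length `Σ_{k≥k0} (x_k - X) 2^{-(k+1)} ≤ Σ_{k≥k0} ((k-k0+1)/K) 2^{-(k+1)} ≤ (2/K) 2^{-k0}`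
(for `k ≥ k0` one has `0 ≤ x_k - X ≤ (k+1-k0)/K`).  So the slice of `GG` at `X` is covered by `2^{k0}`
intervals of length `(2/K)2^{-k0} + 2R 2^{-K}`, measure at most `2/K + 2R 2^{k0-K} ≤ 2/K + 2R 2^{-K/2}
≤ C R/K` for `R ≥ 1`.  Fubini. -/
def T14 : Prop := ∃ C : ℝ, 0 < C ∧ ∀ (K : ℕ) (R : ℝ), 1 ≤ K → 1 ≤ R →
  volume (GG K R) ≤ ENNReal.ofReal (C * R / K)

/-- **T15** (lower bounds for the mass of one beam).  On `|yy b X - Y| ≤ 2^{-K}` one has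
`term ≥ (1-4^{-K})^{4^K} ≥ 1/4` (`|ν|²(1+X²+Y²) ≥ 1`), and for `0 < X < 1/2` (resp. `2 < X < 3`)
`|yy| ≤ 1` (resp. `≤ 3`), `|Y| ≤ 4`, the density of `muC` is `≥ 26^{-3/2}`; the slice at `X` has length
`2·2^{-K}`. -/
def T15 : Prop := ∃ c : ℝ, 0 < c ∧ ∀ (K : ℕ) (b : Fin K → Bool), 1 ≤ K →
  ENNReal.ofReal (c * (1 / 2) ^ K) ≤
    ∫⁻ z in {z : ℝ × ℝ | 0 < z.1 ∧ z.1 < 1 / 2 ∧ |yy K b z.1 - z.2| ≤ (1 / 2) ^ K},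
      ENNReal.ofReal (term K b z.1 z.2) ∂muC ∧
  ENNReal.ofReal (c * (1 / 2) ^ K) ≤
    ∫⁻ z in {z : ℝ × ℝ | 2 < z.1 ∧ z.1 < 3},
      ENNReal.ofReal (term K b z.1 z.2) ∂muC

/-- **T16** (upper bounds for the mass of one beam over `0 < X < 1/2`).  `|yy| ≤ 1`.  For
`|Y| ≤ 2`: `term ≤ exp(-4^K (yy-Y)²/16)` (`3(1+1/4+4) ≤ 16`), so with `s = 2^K (Y-yy)` the integral
over `|s| > R` is `≤ 2^{-K} ∫_{|s|>R} e^{-s²/16} ds`.  For `|Y| > 2`: `|yy-Y| ≥ |Y|/2`,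
`1+X²+Y² ≤ (3/2) Y²`, `term ≤ (1-1/18)^{4^K}`, integrated against the finite measure `muC`: at most
`C (17/18)^{4^K} ≤ η 2^{-K}` for `K ≥ K0`, and `≤ C' 2^{-K}` for all `K`. -/
def T16 : Prop :=
  (∃ C : ℝ, 0 < C ∧ ∀ (K : ℕ) (b : Fin K → Bool), 1 ≤ K →
    ∫⁻ z in {z : ℝ × ℝ | 0 < z.1 ∧ z.1 < 1 / 2}, ENNReal.ofReal (term K b z.1 z.2) ∂muC
      ≤ ENNReal.ofReal (C * (1 / 2) ^ K)) ∧
  (∀ η > (0 : ℝ), ∃ R : ℝ, 1 ≤ R ∧ ∃ K0 : ℕ, ∀ (K : ℕ) (b : Fin K → Bool), K0 ≤ K →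
    ∫⁻ z in {z : ℝ × ℝ | 0 < z.1 ∧ z.1 < 1 / 2 ∧ R * (1 / 2) ^ K < |yy K b z.1 - z.2|},
      ENNReal.ofReal (term K b z.1 z.2) ∂muC
      ≤ ENNReal.ofReal (η * (1 / 2) ^ K))

/-- chart versions of `setA`, `setB`. -/
def chA : Set (ℝ × ℝ) := {z | 2 < z.1 ∨ 2 * |z.1| + 2 < |z.2|}

/-- chart version of `setB`. -/
def chB : Set (ℝ × ℝ) := {z | (0 < z.1 ∧ z.1 < 1 / 2) ∨ 2 * |z.1| + 2 < |z.2|}

/-- **T17** (`q > 1`).  `muC` is a finite measure (total mass `2π`; or `≤` any constant), dominated by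
Lebesgue measure.  Upper bound `∫_{chA} FF^q ≤ C^q muC(univ)` by T12.  Lower bound: let `G = GG K 1`.
By T15, `∫_G FF ≥ Σ_b ∫_{|yy-Y| ≤ 2^{-K}} term_b ≥ 2^K · c 2^{-K} = c`; by Hoelder
`c ≤ ∫_G FF ≤ (∫_G FF^q)^{1/q} muC(G)^{1-1/q} ≤ (∫ FF^q)^{1/q} (C'/K)^{1-1/q}` (T14), so
`∫ FF^q ≥ c^q (K/C')^{q-1} → ∞`. -/
def T17 : Prop := ∀ q : ℝ, 1 < q → ∀ η > (0 : ℝ), ∃ K0 : ℕ, ∀ K : ℕ, K0 ≤ K →
  ∫⁻ z in chA, ENNReal.ofReal (FF K z.1 z.2 ^ q) ∂muC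
    < ENNReal.ofReal η * ∫⁻ z, ENNReal.ofReal (FF K z.1 z.2 ^ q) ∂muC

/-- **T18** (`0 < q < 1`).  Lower bound: on `2 < X < 3` one has `FF ≤ C` (T12), so `FF^q ≥ C^{q-1} FF`
and `∫ FF^q ≥ C^{q-1} ∫_{2<X<3} FF ≥ C^{q-1} c` by T15.  Upper bound: on `|Y| > 2|X|+2` `FF ≤ η'` (T13).
On `0 < X < 1/2`: over `GG K R`, `∫ FF^q ≤ muC(GG)^{1-q} (∫ FF)^q ≤ (C R/K)^{1-q} C'^q` (T14, T16 (1)
summed over `b`), and over the complement `≤ muC(univ)^{1-q} (∫_{compl} FF)^q`, where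
`∫_{compl} FF ≤ Σ_b ∫_{|yy_b-Y|>R 2^{-K}} term_b ≤ η'` (T16 (2)).  Choose first `R`, then `K`. -/
def T18 : Prop := ∀ q : ℝ, 0 < q → q < 1 → ∀ η > (0 : ℝ), ∃ K0 : ℕ, ∀ K : ℕ, K0 ≤ K →
  ∫⁻ z in chB, ENNReal.ofReal (FF K z.1 z.2 ^ q) ∂muC
    < ENNReal.ofReal η * ∫⁻ z, ENNReal.ofReal (FF K z.1 z.2 ^ q) ∂muC

/-- **T19** (back to the sphere).  Proof from T8: `SS K x = ‖x‖^{2·4^K} F̃(x)` with
`F̃(t x) = F̃(x)` for `t ≠ 0` and `F̃(X,Y,1) = FF K X Y`; `(X,Y,1) ∈ setA ↔ (X,Y) ∈ chA`, same for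
`B`; `setA, setB` are invariant under multiplication by `t ≠ 0`.  Apply T8 to `1_{setA} F̃^q` and to
`F̃^q`. -/
def T19 : Prop := ∀ q : ℝ, 0 < q → q ≠ 1 → ∀ η > (0 : ℝ), ∃ K0 : ℕ, ∀ K : ℕ, K0 ≤ K →
  ∫⁻ x in {x : Sph 2 | (x : E 2) ∈ (if 1 < q then setA else setB)},
      ENNReal.ofReal (SS K (x : E 2) ^ q) ∂(vol 2)
    < ENNReal.ofReal η * ∫⁻ x : Sph 2, ENNReal.ofReal (SS K (x : E 2) ^ q) ∂(vol 2)

end Pool.Agent.Q73.TG
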